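import Mathlib

set_option autoImplicit false

/-! TN40 row AL (MEDIUM, ONLY Mathlib).  If all subgroups of finite index of the fundamental group of the base are normal and
the total space is path connected with a finite fibre, then a loop with one closed lift has all its lifts closed.

PLAN.  Let `F = p ⁻¹' {b}`, finite, and let `ρ = hp.monodromyPerm b : FundamentalGroup B b →* Equiv.Perm F`
(Mathlib/Topology/Homotopy/Lifting.lean; see `LibBR40/M1.lean` for a worked use: `M1_mon`, `M1_lift`).  For `e ∈ F` let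
`S e = {g | ρ g e = e}` (`MulAction.stabilizer` or the comap of the stabilizer of `e` in `Equiv.Perm F`, which has finite index
since `Equiv.Perm F` is finite: `Subgroup.FiniteIndex` of a comap, or via the kernel of `ρ`), of finite index, so normal.
`E` is path connected: for `e, e' ∈ F` a path from `e` to `e'` projects to a loop at `b` whose class `g` satisfies `ρ g e = e'`
(uniqueness of lifts), hence `S e' = g S e g⁻¹ = S e`.  `Γ` is a lift of `γ`, so `ρ [γ] (Γ 0) = Γ 1 = Γ 0`: `[γ] ∈ S (Γ 0) = S (Γ' 0)`,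
so `Γ' 1 = ρ [γ] (Γ' 0) = Γ' 0`. -/

namespace LibTN40

private theorem AL_mon {X Y : Type} [TopologicalSpace X] [TopologicalSpace Y] {p : Y → X}
    (hp : IsCoveringMap p) {x : X} (f : Path x x) {e1 e2 : Y} (h1 : p e1 = x) (h2 : p e2 = x)
    (Γ : Path e1 e2) (hΓ : ∀ t, p (Γ t) = f t) :
    hp.monodromy (Path.Homotopic.Quotient.mk f) ⟨e1, h1⟩ = ⟨e2, h2⟩ := by
  refine hp.monodromy_eq_of_map_eq (Path.Homotopic.Quotient.mk Γ) ?_
  exact congrArg Path.Homotopic.Quotient.mk
    (Path.ext (funext fun t => hΓ t) : Γ.map hp.continuous = f.cast h1 h2)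

theorem AL {E B : Type} [TopologicalSpace E] [TopologicalSpace B] (p : E → B)
    (hp : IsCoveringMap p) [PathConnectedSpace E] (b : B) (hfin : (p ⁻¹' {b}).Finite)
    (hN : ∀ H : Subgroup (FundamentalGroup B b), H.FiniteIndex → H.Normal) (γ : Path b b)
    (Γ Γ' : C(unitInterval, E)) (h : ∀ t, p (Γ t) = γ t) (h' : ∀ t, p (Γ' t) = γ t)
    (hcl : Γ 1 = Γ 0) : Γ' 1 = Γ' 0 := by
  classical
  have hF : Finite ↥(p ⁻¹' {b}) := hfin.to_subtype
  have k0 : p (Γ 0) = b := by rw [h, γ.source]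
  have k0' : p (Γ' 0) = b := by rw [h', γ.source]
  have k1' : p (Γ' 1) = b := by rw [h', γ.target]
  let e0 : ↥(p ⁻¹' {b}) := ⟨Γ 0, k0⟩
  let e0' : ↥(p ⁻¹' {b}) := ⟨Γ' 0, k0'⟩
  let ρ : FundamentalGroup B b →* Equiv.Perm ↥(p ⁻¹' {b}) := hp.monodromyPerm b
  let x : FundamentalGroup B b := Path.Homotopic.Quotient.mk γ
  have hx : ρ x e0 = e0 := AL_mon hp γ k0 k0 ⟨Γ, rfl, hcl⟩ h
  have hx' : ρ x e0' = ⟨Γ' 1, k1'⟩ := AL_mon hp γ k0' k1' ⟨Γ', rfl, rfl⟩ h'
  -- a path between the two points of the fibre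
  obtain ⟨η⟩ := PathConnectedSpace.joined (Γ 0) (Γ' 0)
  let g0 : FundamentalGroup B b := Path.Homotopic.Quotient.mk ((η.map hp.continuous).cast k0.symm k0'.symm)
  have hg0 : ρ g0 e0 = e0' := AL_mon hp ((η.map hp.continuous).cast k0.symm k0'.symm) k0 k0' η fun t => rfl
  let S : Subgroup (FundamentalGroup B b) := (MulAction.stabilizer (Equiv.Perm ↥(p ⁻¹' {b})) e0).comap ρ
  have hSf : S.FiniteIndex := by
    refine ⟨?_⟩
    show ((MulAction.stabilizer (Equiv.Perm ↥(p ⁻¹' {b})) e0).comap ρ).index ≠ 0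
    rw [Subgroup.index_comap]
    have hfi : Finite ↥ρ.range := inferInstance
    show ((MulAction.stabilizer (Equiv.Perm ↥(p ⁻¹' {b})) e0).subgroupOf ρ.range).index ≠ 0
    exact Subgroup.index_ne_zero_of_finite
  have hSn := hN S hSf
  have hxS : x ∈ S := by
    show ρ x ∈ MulAction.stabilizer (Equiv.Perm ↥(p ⁻¹' {b})) e0
    exact hx
  have h1 : g0⁻¹ * x * g0 ∈ S := by
    have := hSn.conj_mem x hxS g0⁻¹
    rwa [inv_inv] at this
  have h2 : ρ (g0⁻¹ * x * g0) e0 = e0 := h1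
  rw [map_mul, map_mul, map_inv, Equiv.Perm.mul_apply, Equiv.Perm.mul_apply, hg0, Equiv.Perm.inv_eq_iff_eq, hg0, hx'] at h2
  exact congrArg Subtype.val h2

end LibTN40
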