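import Pool.Agent.LibTN40.Defs
import Pool.Agent.LibBR40.N3

set_option autoImplicit false

/-! TN40 row CC (MEDIUM).  The number of preimages is constant off the branch values, and maximal there.  You may use the
(public) theorems of `LibBR40.N3` (`N3_dense`, `N3_open`, `N3_cov`); its private lemmas `N3_nhds`, `N3_isOpen_ge` (same file, copy
them if you need them) say that the number of preimages does not decrease near a point.

PLAN for `CC`.  `resMap f U V A hm` (`A = f '' Br f U`) is a covering map (`N3_cov`) onto the preconnected space `↥(V \ A)`, with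
finite fibres.  `V \ A` is open (`N3_open`) and preconnected, so path connected or empty
(`IsOpen.isConnected_iff_isPathConnected`).  If empty take `d = 0`.  Otherwise for two points `y, y'` of `V \ A` a path from `y` to
`y'` gives a bijection of the fibres (`IsCoveringMap.monodromy`, bijective since the reversed path gives the inverse; see the use
in `LibBR40/M1.lean` and Mathlib/Topology/Homotopy/Lifting.lean), or use that the cardinality of the fibre of a covering map
is locally constant (`IsCoveringMap` gives trivializations) and `IsPreconnected.constant`.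
The fibre of `resMap` over `y` is in bijection with `U ∩ f ⁻¹' {y}` (if `y ∉ A`, every point of `U` over `y` is in `U \ f ⁻¹' A`).
`CC_le` : near `y0` every `y` has at least as many preimages (`N3_isOpen_ge`), and there is such a `y ∉ A` (`N3_dense`). -/

namespace LibTN40

open LibBR40

private theorem CC_locConst {X Y : Type*} [TopologicalSpace X] [TopologicalSpace Y] {p : Y → X}
    (hp : IsCoveringMap p) : IsLocallyConstant (fun x => (p ⁻¹' {x}).ncard) := by
  rw [IsLocallyConstant.iff_exists_open]
  intro x
  obtain ⟨h1, O, hxO, hO, hfO, H, hH⟩ := hp x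
  refine ⟨O, hO, hxO, ?_⟩
  intro y hy
  have h2 : IsEvenlyCovered p y (p ⁻¹' {x}) := ⟨h1, O, hy, hO, hfO, H, hH⟩
  have h3 := Nat.card_congr h2.fiberHomeomorph.toEquiv
  rw [Nat.card_coe_set_eq, Nat.card_coe_set_eq] at h3
  exact h3.symm

theorem CC {n : ℕ} {f : Eu n → Eu n} {U V : Set (Eu n)} (h : OD f U V) (hm : ∀ y ∈ U, f y ∈ V)
    (hc : IsPreconnected (V \ f '' Br f U)) :
    ∃ d : ℕ, ∀ y ∈ V, y ∉ f '' Br f U → (U ∩ f ⁻¹' {y}).ncard = d := by
  have hcov := N3_cov h hm
  have hlc := CC_locConst hcov
  have : PreconnectedSpace ↥(V \ f '' Br f U) := Subtype.preconnectedSpace hc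
  have key : ∀ (y : Eu n) (hy : y ∈ V \ f '' Br f U),
      (U ∩ f ⁻¹' {y}).ncard = (resMap f U V (f '' Br f U) hm ⁻¹' {⟨y, hy⟩}).ncard := by
    intro y hy
    rw [← Set.ncard_image_of_injective _ Subtype.val_injective]
    congr 1
    ext x
    constructor
    · rintro ⟨hx, hxy⟩
      have hxy' : f x = y := hxy
      have hxA : x ∉ f ⁻¹' (f '' Br f U) := by
        intro hx'
        apply hy.2
        rw [← hxy']
        exact hx'
      exact ⟨⟨x, hx, hxA⟩, Subtype.ext hxy', rfl⟩
    · rintro ⟨z, hz, rfl⟩
      exact ⟨z.2.1, congrArg Subtype.val hz⟩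
  by_cases hne : (V \ f '' Br f U).Nonempty
  · obtain ⟨y0, hy0⟩ := hne
    refine ⟨(resMap f U V (f '' Br f U) hm ⁻¹' {⟨y0, hy0⟩}).ncard, ?_⟩
    intro y hy hyA
    rw [key y ⟨hy, hyA⟩]
    exact hlc.apply_eq_of_preconnectedSpace _ _
  · refine ⟨0, ?_⟩
    intro y hy hyA
    exact absurd ⟨y, hy, hyA⟩ hne

end LibTN40
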