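import Pool.Agent.LibTN40.Defs

set_option autoImplicit false

/-! TN40 row DM (SHORT/MEDIUM).  A set with fine necklaces has dimension zero.

PLAN.  `C ⊆ A` compact, `U : Fin m → Set`, open, `C ⊆ ⋃ U i`.  Lebesgue number (`lebesgue_number_lemma_of_metric`): `ε > 0`
such that for every `x ∈ C` there is `i` with `ball x ε ⊆ U i`.  `hA ε` gives `L, W` (`m'` of them).  For `j : Fin m'` with
`(C ∩ L j).Nonempty` choose `i j` with `C ∩ L j ⊆ U (i j)` (take a point `x` in it; all points of `L j ⊆ W j` have distance `< ε`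
from `x`); let `V i = ⋃ j ∈ {j | (C ∩ L j).Nonempty ∧ i j = i}, C ∩ L j`, a finite union of compact sets.  The sets `C ∩ L j` are
pairwise disjoint, so a point lies in at most one `V i`: the set `{i | x ∈ V i}` has at most one element (`Set.ncard_le_one`), `≤ k + 1`.
If `m = 0` then `C = ∅` and everything is trivial (the choice function `i` needs care: use `if h : ... then choose else` with
an arbitrary element only when `m > 0`, or choose `i : Fin m' → Option (Fin m)`, or define
`V i = ⋃ j, {y | y ∈ C ∩ L j ∧ i = the chosen index of j}` by `Classical.choose` under the nonemptiness proof). -/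

namespace LibTN40

open LibBR40

theorem DM {n k : ℕ} (A : Set (Eu n)) (hA : Neck A) (C : Set (Eu n)) (hCA : C ⊆ A)
    (hC : IsCompact C) : CovDim k C := by
  classical
  intro m U hU hCU
  obtain ⟨ε, hε, hball⟩ := lebesgue_number_lemma_of_metric hC hU hCU
  obtain ⟨m', L, W, hL, -, hLW, hdisj, hdist, -, -, -, hcov⟩ := hA ε hε
  have hex : ∀ j, (C ∩ L j).Nonempty → ∃ i, C ∩ L j ⊆ U i := by
    rintro j ⟨x, hxC, hxL⟩
    obtain ⟨i, hi⟩ := hball x hxC
    refine ⟨i, fun y hy => hi ?_⟩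
    rw [Metric.mem_ball]
    exact hdist j y (hLW j hy.2) x (hLW j hxL)
  choose idx hidx using hex
  refine ⟨fun i => ⋃ j, {y | ∃ h : (C ∩ L j).Nonempty, idx j h = i ∧ y ∈ C ∩ L j}, fun i => ?_, fun i => ?_,
    fun i => ?_, ?_, fun x => ?_⟩
  · refine isCompact_iUnion fun j => ?_
    by_cases h : ∃ h : (C ∩ L j).Nonempty, idx j h = i
    · obtain ⟨h1, h2⟩ := h
      have e : {y | ∃ h : (C ∩ L j).Nonempty, idx j h = i ∧ y ∈ C ∩ L j} = C ∩ L j := by
        ext y
        exact ⟨fun hy => hy.2.2, fun hy => ⟨h1, h2, hy⟩⟩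
      rw [e]
      exact hC.inter (hL j)
    · have e : {y | ∃ h : (C ∩ L j).Nonempty, idx j h = i ∧ y ∈ C ∩ L j} = ∅ := by
        ext y
        constructor
        · rintro ⟨h1, h2, -⟩
          exact h ⟨h1, h2⟩
        · intro hy
          exact absurd hy (Set.notMem_empty y)
      rw [e]
      exact isCompact_empty
  · intro y hy
    obtain ⟨j, h1, h2, h3⟩ := Set.mem_iUnion.1 hy
    rw [← h2]
    exact hidx j h1 h3
  · intro y hy
    obtain ⟨j, h1, h2, h3⟩ := Set.mem_iUnion.1 hy
    exact h3.1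
  · intro y hy
    obtain ⟨j, hj⟩ := Set.mem_iUnion.1 (hcov (hCA hy))
    have h1 : (C ∩ L j).Nonempty := ⟨y, hy, hj⟩
    exact Set.mem_iUnion.2 ⟨idx j h1, Set.mem_iUnion.2 ⟨j, h1, rfl, hy, hj⟩⟩
  · have h1 : {i | x ∈ ⋃ j, {y | ∃ h : (C ∩ L j).Nonempty, idx j h = i ∧ y ∈ C ∩ L j}}.ncard ≤ 1 := by
      rw [Set.ncard_le_one (Set.toFinite _)]
      intro a ha b hb
      obtain ⟨j, h1, h2, h3⟩ := Set.mem_iUnion.1 ha
      obtain ⟨j', h1', h2', h3'⟩ := Set.mem_iUnion.1 hb
      have hjj : j = j' := by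
        by_contra hne
        exact Set.disjoint_left.1 (hdisj j j' hne) (hLW j h3.2) (hLW j' h3'.2)
      subst hjj
      rw [← h2, ← h2']
    exact h1.trans (by omega)

end LibTN40
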