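import Mathlib
import Pool.Agent.LibBR40.Defs

set_option autoImplicit false

open scoped Topology

/-! Definitions of the TN40 board (MP_5b12c2_an, branch values in a necklace).  No theorem in this file needs to be
changed. -/

namespace LibTN40

open LibBR40

/-- Multiplicative, homotopy invariant functions of paths with values in a (nonabelian) group. -/
structure GSys (Y : Type*) [TopologicalSpace Y] (G : Type*) [Group G] where
  a : ∀ {x y : Y}, Path x y → G
  tr : ∀ {x y z : Y} (p : Path x y) (q : Path y z), a (p.trans q) = a p * a q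
  ho : ∀ {x y : Y} (p q : Path x y), p.Homotopic q → a p = a q

/-- The pullback of a path system by a continuous map. -/
def GSys.comap {Y Z : Type*} [TopologicalSpace Y] [TopologicalSpace Z] {G : Type*} [Group G]
    (P : GSys Y G) (k : C(Z, Y)) : GSys Z G where
  a := fun p => P.a (p.map k.continuous)
  tr := fun p q => by rw [Path.map_trans, P.tr]
  ho := fun p q h => P.ho _ _ (h.map k)

/-- The path `τ ↦ H (a + τ (b - a))` in the subset `Z`. -/
noncomputable def eP {n : ℕ} {Z : Set (Eu n)} (H : ℝ × ℝ → Eu n) (hH : Continuous H) (a b : ℝ × ℝ)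
    (h : ∀ τ : ℝ, 0 ≤ τ → τ ≤ 1 → H (AffineMap.lineMap a b τ) ∈ Z)
    (ha : H a ∈ Z) (hb : H b ∈ Z) : Path (⟨H a, ha⟩ : ↥Z) ⟨H b, hb⟩ where
  toFun t := ⟨H (AffineMap.lineMap a b (t : ℝ)), h t t.2.1 t.2.2⟩
  continuous_toFun := by
    refine Continuous.subtype_mk (hH.comp ?_) _
    exact (AffineMap.lineMap_continuous).comp continuous_subtype_val
  source' := by simp
  target' := by simp

/-- `A` has arbitrarily fine necklaces: finitely many compact sets `L j` covering `A`, inside pairwise disjoint open
sets `W j` of diameter less than `ε`, with connected complements, such that all subgroups of finite index of the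
fundamental group of the path connected space `W j \ L j` are normal. -/
def Neck {n : ℕ} (A : Set (Eu n)) : Prop :=
  ∀ ε > (0 : ℝ), ∃ (m : ℕ) (L W : Fin m → Set (Eu n)),
    (∀ j, IsCompact (L j)) ∧ (∀ j, IsOpen (W j)) ∧ (∀ j, L j ⊆ W j) ∧
    (∀ i j, i ≠ j → Disjoint (W i) (W j)) ∧ (∀ j, ∀ y ∈ W j, ∀ z ∈ W j, dist y z < ε) ∧
    (∀ j, IsConnected (L j)ᶜ) ∧ (∀ j, IsPathConnected (W j \ L j)) ∧
    (∀ j (t : ↥(W j \ L j)) (H : Subgroup (FundamentalGroup ↥(W j \ L j) t)),
      H.FiniteIndex → H.Normal) ∧
    A ⊆ ⋃ j, L j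

end LibTN40
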