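import Pool.Agent.LibTN40.Defs

set_option autoImplicit false

/-! TN40 row FI (MEDIUM).  The monodromy of a covering as a path system with values in a group.

PLAN.  Let `F = p ⁻¹' {b0}`, `G = (Equiv.Perm F)ᵐᵒᵖ` or `Equiv.Perm F` (whichever makes `tr` true).  For every `b : B` choose the path
`c b = PathConnectedSpace.somePath b0 b`.  For `γ : Path x y` let `a γ` be the monodromy
(`IsCoveringMap.monodromyPerm`, Mathlib/Topology/Homotopy/Lifting.lean) of the loop `c x · γ · (c y)⁻¹` at `b0`; `tr` and `ho` as in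
`LibBR40/T1.lean` (there the same is done for a homomorphism of the fundamental group to a commutative group `Q`; you can
copy that proof with a noncommutative `Q`: take `φ` = `hp.monodromyPerm b0`, possibly composed with the inverse / opposite).
For a loop `γ` at `b` : `a γ = 1` iff `[γ]` (monodromy on `p ⁻¹' {b}`) acts trivially (the monodromy of `c b` is a bijection
`p ⁻¹' {b0} → p ⁻¹' {b}` which conjugates), iff for every `e` over `b` the lift of `γ` starting at `e` ends at `e`
(`hp.monodromy ⟦γ⟧ e = hp.liftPath ... 1`, by definition, see `M1_lift`, `M1_mon` in `LibBR40/M1.lean`); lifts are unique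
(`IsCoveringMap.eq_liftPath_iff'`, `hp.eq_of_comp_eq`).  A `Γ : C(unitInterval, E)` with `p (Γ t) = γ t` is a lift starting at
`Γ 0`. -/

namespace LibTN40

private theorem FI_mon {X Y : Type} [TopologicalSpace X] [TopologicalSpace Y] {p : Y → X}
    (hp : IsCoveringMap p) {x x' : X} (f : Path x x') {e1 e2 : Y} (h1 : p e1 = x) (h2 : p e2 = x')
    (Γ : Path e1 e2) (hΓ : ∀ t, p (Γ t) = f t) :
    hp.monodromy (Path.Homotopic.Quotient.mk f) ⟨e1, h1⟩ = ⟨e2, h2⟩ := by
  refine hp.monodromy_eq_of_map_eq (Path.Homotopic.Quotient.mk Γ) ?_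
  exact congrArg Path.Homotopic.Quotient.mk
    (Path.ext (funext fun t => hΓ t) : Γ.map hp.continuous = f.cast h1 h2)

private noncomputable def FI_E {E B : Type} [TopologicalSpace E] [TopologicalSpace B] {p : E → B}
    (hp : IsCoveringMap p) {x y : B} (γ : Path x y) : p ⁻¹' {x} ≃ p ⁻¹' {y} :=
  Equiv.ofBijective (hp.monodromy (Path.Homotopic.Quotient.mk γ)) (hp.monodromy_bijective _)

private theorem FI_E_apply {E B : Type} [TopologicalSpace E] [TopologicalSpace B] {p : E → B}
    (hp : IsCoveringMap p) {x y : B} (γ : Path x y) (e : p ⁻¹' {x}) :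
    FI_E hp γ e = hp.monodromy (Path.Homotopic.Quotient.mk γ) e := rfl

private theorem FI_E_trans {E B : Type} [TopologicalSpace E] [TopologicalSpace B] {p : E → B}
    (hp : IsCoveringMap p) {x y z : B} (γ : Path x y) (γ' : Path y z) :
    FI_E hp (γ.trans γ') = (FI_E hp γ).trans (FI_E hp γ') := by
  apply Equiv.ext
  intro e
  rw [Equiv.trans_apply, FI_E_apply, FI_E_apply, FI_E_apply]
  exact hp.monodromy_trans_apply (Path.Homotopic.Quotient.mk γ) (Path.Homotopic.Quotient.mk γ') e

private theorem FI_E_ho {E B : Type} [TopologicalSpace E] [TopologicalSpace B] {p : E → B}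
    (hp : IsCoveringMap p) {x y : B} (γ γ' : Path x y) (h : γ.Homotopic γ') :
    FI_E hp γ = FI_E hp γ' := by
  have h1 : (Path.Homotopic.Quotient.mk γ : Path.Homotopic.Quotient x y) =
      Path.Homotopic.Quotient.mk γ' := Path.Homotopic.Quotient.eq.2 h
  apply Equiv.ext
  intro e
  rw [FI_E_apply, FI_E_apply, h1]

private noncomputable def FI_A {E B : Type} [TopologicalSpace E] [TopologicalSpace B] {p : E → B}
    (hp : IsCoveringMap p) (b0 : B) (c : ∀ b : B, Path b0 b) {x y : B} (γ : Path x y) :
    Equiv.Perm (p ⁻¹' {b0}) :=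
  (FI_E hp (c y)).trans ((FI_E hp γ).symm.trans (FI_E hp (c x)).symm)

theorem FI {E B : Type} [TopologicalSpace E] [TopologicalSpace B] (p : E → B)
    (hp : IsCoveringMap p) [PathConnectedSpace B] :
    ∃ (G : Type) (_ : Group G) (P : GSys B G), ∀ (b : B) (γ : Path b b),
      P.a γ = 1 ↔ ∀ Γ : C(unitInterval, E), (∀ t, p (Γ t) = γ t) → Γ 1 = Γ 0 := by
  classical
  obtain ⟨b0⟩ := (inferInstance : Nonempty B)
  let c : ∀ b : B, Path b0 b := fun b => PathConnectedSpace.somePath b0 b
  refine ⟨Equiv.Perm (p ⁻¹' {b0}), inferInstance, ⟨fun {x y} γ => FI_A hp b0 c γ, ?_, ?_⟩, ?_⟩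
  · intro x y z q q'
    apply Equiv.ext
    intro e
    simp only [FI_A, FI_E_trans, Equiv.Perm.mul_apply, Equiv.trans_apply, Equiv.symm_trans_apply,
      Equiv.apply_symm_apply]
  · intro x y q q' h
    simp only [FI_A, FI_E_ho hp q q' h]
  · intro b γ
    have key : FI_A hp b0 c γ = 1 ↔ ∀ e, FI_E hp γ e = e := by
      constructor
      · intro h e
        have h1 := congrArg (fun f : Equiv.Perm (p ⁻¹' {b0}) => f ((FI_E hp (c b)).symm e)) h
        simp only [FI_A, Equiv.trans_apply, Equiv.apply_symm_apply, Equiv.Perm.one_apply] at h1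
        have h2 := (FI_E hp (c b)).symm.injective h1
        rw [Equiv.symm_apply_eq] at h2
        exact h2.symm
      · intro h
        apply Equiv.ext
        intro e
        simp only [FI_A, Equiv.trans_apply, Equiv.Perm.one_apply]
        rw [Equiv.symm_apply_eq, Equiv.symm_apply_eq, h]
    change FI_A hp b0 c γ = 1 ↔ _
    rw [key]
    constructor
    · intro h Γ hΓ
      have h0 : p (Γ 0) = b := by rw [hΓ 0]; exact γ.source
      have h1 : p (Γ 1) = b := by rw [hΓ 1]; exact γ.target
      have h2 := FI_mon hp γ h0 h1 ⟨Γ, rfl, rfl⟩ hΓ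
      have h3 := h ⟨Γ 0, h0⟩
      rw [FI_E_apply, h2] at h3
      exact congrArg Subtype.val h3
    · intro h e
      have h0 : γ 0 = p e := γ.source.trans e.2.symm
      have h1 := h (hp.liftPath γ e h0) (fun t => congrFun (hp.liftPath_lifts γ e h0) t)
      rw [hp.liftPath_zero] at h1
      rw [FI_E_apply]
      exact Subtype.ext h1

end LibTN40
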