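import Mathlib

set_option autoImplicit false

/-! TN40 row G1 (SHORT, ONLY Mathlib).  The product around a grid: pure group theory.

PLAN.  First for a strip of height one: for `k < N`, by induction on `M ≤ N`:
`(∏_{i<M} h i k) * v M k = v 0 k * ∏_{i<M} h i (k+1)` (`List.range_succ`, `List.map_append`, `List.prod_append`).  Then by induction on `K ≤ N`:
`(∏_{i<N} h i 0) * (∏_{k<K} v N k) = (∏_{k<K} v 0 k) * (∏_{i<N} h i K)`. -/

namespace LibTN40

private theorem G1_strip {G : Type*} [Group G] (N : ℕ) (h v : ℕ → ℕ → G)
    (sq : ∀ i < N, ∀ k < N, h i k * v (i + 1) k = v i k * h i (k + 1)) (k : ℕ) (hk : k < N) (M : ℕ) (hM : M ≤ N) :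
    ((List.range M).map fun i => h i k).prod * v M k =
      v 0 k * ((List.range M).map fun i => h i (k + 1)).prod := by
  induction M with
  | zero => simp
  | succ M ih =>
    rw [List.range_succ, List.map_append, List.map_append, List.prod_append, List.prod_append]
    simp only [List.map_cons, List.map_nil, List.prod_cons, List.prod_nil, mul_one]
    rw [mul_assoc, sq M (by omega) k hk, ← mul_assoc, ih (by omega), mul_assoc]

theorem G1 {G : Type*} [Group G] (N : ℕ) (h v : ℕ → ℕ → G)
    (sq : ∀ i < N, ∀ k < N, h i k * v (i + 1) k = v i k * h i (k + 1)) :
    ((List.range N).map fun i => h i 0).prod * ((List.range N).map fun k => v N k).prod =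
      ((List.range N).map fun k => v 0 k).prod * ((List.range N).map fun i => h i N).prod := by
  have key : ∀ K, K ≤ N → ((List.range N).map fun i => h i 0).prod * ((List.range K).map fun k => v N k).prod =
      ((List.range K).map fun k => v 0 k).prod * ((List.range N).map fun i => h i K).prod := by
    intro K hK
    induction K with
    | zero => simp
    | succ K ih =>
      rw [List.range_succ, List.map_append, List.map_append, List.prod_append, List.prod_append]
      simp only [List.map_cons, List.map_nil, List.prod_cons, List.prod_nil, mul_one]
      rw [← mul_assoc, ih (by omega), mul_assoc, G1_strip N h v sq K (by omega) N le_rfl, mul_assoc]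
  exact key N le_rfl

end LibTN40
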