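import Mathlib

set_option autoImplicit false

/-! TN40 row G2 (SHORT/MEDIUM, ONLY Mathlib).  A fine grid of the unit square for an open cover.

PLAN.  The preimages `H ⁻¹' O j` are open in `ℝ × ℝ` and cover the compact square `Icc 0 1 ×ˢ Icc 0 1`;
`lebesgue_number_lemma_of_metric` gives `δ > 0` such that every ball of radius `δ` around a point of the square lies in one
`H ⁻¹' O j`.  Take `N > 0` with `1 / N < δ` and use the ball around `(i / N, k / N)` (sup metric on `ℝ × ℝ` : `Prod.dist_eq`). -/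

namespace LibTN40

theorem G2 {X ι : Type*} [TopologicalSpace X] (H : ℝ × ℝ → X) (hH : Continuous H) (O : ι → Set X)
    (hO : ∀ j, IsOpen (O j))
    (hcov : ∀ s t : ℝ, 0 ≤ s → s ≤ 1 → 0 ≤ t → t ≤ 1 → ∃ j, H (s, t) ∈ O j) :
    ∃ N : ℕ, 0 < N ∧ ∀ i < N, ∀ k < N, ∃ j, ∀ s t : ℝ, (i : ℝ) / N ≤ s → s ≤ (i + 1 : ℕ) / N →
      (k : ℝ) / N ≤ t → t ≤ (k + 1 : ℕ) / N → H (s, t) ∈ O j := by
  have hc : IsCompact (Set.Icc (0 : ℝ) 1 ×ˢ Set.Icc (0 : ℝ) 1) := isCompact_Icc.prod isCompact_Icc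
  obtain ⟨δ, hδ, hball⟩ := lebesgue_number_lemma_of_metric hc (c := fun j => H ⁻¹' O j)
    (fun j => (hO j).preimage hH) (by
      rintro ⟨s, t⟩ ⟨hs, ht⟩
      obtain ⟨j, hj⟩ := hcov s t hs.1 hs.2 ht.1 ht.2
      exact Set.mem_iUnion.2 ⟨j, hj⟩)
  obtain ⟨n, hn⟩ := exists_nat_one_div_lt hδ
  refine ⟨n + 1, Nat.succ_pos n, fun i hi k hk => ?_⟩
  have hN : (0 : ℝ) < ((n + 1 : ℕ) : ℝ) := by exact_mod_cast Nat.succ_pos n
  have hmem : ∀ i : ℕ, i < n + 1 → (i : ℝ) / ((n + 1 : ℕ) : ℝ) ∈ Set.Icc (0 : ℝ) 1 := by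
    intro i hi
    refine ⟨by positivity, ?_⟩
    rw [div_le_one hN]
    exact_mod_cast hi.le
  obtain ⟨j, hj⟩ := hball ((i : ℝ) / ((n + 1 : ℕ) : ℝ), (k : ℝ) / ((n + 1 : ℕ) : ℝ)) ⟨hmem i hi, hmem k hk⟩
  refine ⟨j, fun s t h1 h2 h3 h4 => ?_⟩
  have hclose : ∀ (i : ℕ) (s : ℝ), (i : ℝ) / ((n + 1 : ℕ) : ℝ) ≤ s → s ≤ ((i + 1 : ℕ) : ℝ) / ((n + 1 : ℕ) : ℝ) →
      dist s ((i : ℝ) / ((n + 1 : ℕ) : ℝ)) < δ := by
    intro i s h1 h2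
    rw [Real.dist_eq, abs_of_nonneg (by linarith)]
    have e : ((i + 1 : ℕ) : ℝ) / ((n + 1 : ℕ) : ℝ) = (i : ℝ) / ((n + 1 : ℕ) : ℝ) + 1 / ((n + 1 : ℕ) : ℝ) := by
      push_cast
      ring
    have e2 : 1 / ((n + 1 : ℕ) : ℝ) < δ := by
      push_cast
      exact hn
    linarith
  have hin : ((s, t) : ℝ × ℝ) ∈ Metric.ball ((i : ℝ) / ((n + 1 : ℕ) : ℝ), (k : ℝ) / ((n + 1 : ℕ) : ℝ)) δ := by
    rw [Metric.mem_ball, Prod.dist_eq]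
    exact max_lt (hclose i s h1 h2) (hclose k t h3 h4)
  exact hj hin

end LibTN40
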