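import Pool.Agent.LibTN40.GP

set_option autoImplicit false

/-! TN40 row GE (MEDIUM).  Group theory at the end: one sheet.  You may use `GP`.

PLAN.  `v = i (k t0)`, `F = p ⁻¹' {v}` finite, `ρ = hp.monodromyPerm v` (Mathlib/Topology/Homotopy/Lifting.lean; see
`LibBR40/M1.lean` for a worked use in the same situation).  `φ2 = ρ ∘ FundamentalGroup.map i (k t0) : FundamentalGroup B2 (k t0) →*
Equiv.Perm F`, `φT = φ2 ∘ FundamentalGroup.map k t0 : FundamentalGroup T t0 →* Equiv.Perm F`; `G = φ2.range`, finite.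
(1) `htr` : for all `e, e' ∈ F` there is an element of `φT.range` with `e ↦ e'`.
(2) `hfree` : if `g ∈ G` fixes one `e ∈ F` then `g = 1` (every element of the fundamental group is the class of a path, its
action on `e'` is the endpoint of the lift starting at `e'`).
(3) `F` is empty or not; if empty nothing to prove.  Fix `e`.  For `g ∈ G` there is `t ∈ φT.range` with `t e = g e`; `t⁻¹ g ∈ G` fixes `e`, so
`g = t`.  So `G = φT.range` is a quotient of `FundamentalGroup T t0`: for a subgroup `H` of `G` its preimage in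
`FundamentalGroup T t0` has finite index, so is normal by `hN`, so `H` is normal (`Subgroup.Normal.map` for a surjective map,
`Subgroup.map_comap_eq_self_of_surjective`).
(4) `hperf` : every homomorphism `G →* Q` composed with the surjection `φ2.rangeRestrict` is trivial, so it is trivial.
(5) `GP` : `G` is trivial, and by (1) all points of `F` are equal. -/

namespace LibTN40

private theorem GE_mon {X Y : Type} [TopologicalSpace X] [TopologicalSpace Y] {p : Y → X}
    (hp : IsCoveringMap p) {x : X} (f : Path x x) {e1 e2 : Y} (h1 : p e1 = x) (h2 : p e2 = x)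
    (Γ : Path e1 e2) (hΓ : ∀ t, p (Γ t) = f t) :
    hp.monodromy (Path.Homotopic.Quotient.mk f) ⟨e1, h1⟩ = ⟨e2, h2⟩ := by
  refine hp.monodromy_eq_of_map_eq (Path.Homotopic.Quotient.mk Γ) ?_
  exact congrArg Path.Homotopic.Quotient.mk
    (Path.ext (funext fun t => hΓ t) : Γ.map hp.continuous = f.cast h1 h2)

private theorem GE_lift {X Y : Type} [TopologicalSpace X] [TopologicalSpace Y] {p : Y → X}
    (hp : IsCoveringMap p) {x : X} (f : Path x x) (e1 : p ⁻¹' {x}) :
    ∃ Γ : Path (e1 : Y) (hp.monodromy (Path.Homotopic.Quotient.mk f) e1 : Y),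
      ∀ t, p (Γ t) = f t :=
  ⟨⟨hp.liftPath f e1 (f.source.trans e1.2.symm), hp.liftPath_zero .., rfl⟩,
    fun t => congrFun (hp.liftPath_lifts f e1 (f.source.trans e1.2.symm)) t⟩

theorem GE {E B B2 T : Type} [TopologicalSpace E] [TopologicalSpace B] [TopologicalSpace B2]
    [TopologicalSpace T] (p : E → B) (hp : IsCoveringMap p) (i : C(B2, B)) (k : C(T, B2)) (t0 : T)
    (hfin : (p ⁻¹' {i (k t0)}).Finite)
    (htr : ∀ e e' : E, p e = i (k t0) → p e' = i (k t0) →
      ∃ (γ : Path t0 t0) (Γ : Path e e'), ∀ t, p (Γ t) = i (k (γ t)))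
    (hfree : ∀ (γ : Path (k t0) (k t0)) (Γ Γ' : C(unitInterval, E)), (∀ t, p (Γ t) = i (γ t)) →
      (∀ t, p (Γ' t) = i (γ t)) → Γ 1 = Γ 0 → Γ' 1 = Γ' 0)
    (hN : ∀ H : Subgroup (FundamentalGroup T t0), H.FiniteIndex → H.Normal)
    (hperf : ∀ (Q : Type) [CommGroup Q] (φ : FundamentalGroup B2 (k t0) →* Q), φ = 1) :
    ∀ e e' : E, p e = i (k t0) → p e' = i (k t0) → e = e' := by
  classical
  let F : Type := p ⁻¹' {i (k t0)}
  let φ2 : FundamentalGroup B2 (k t0) →* Equiv.Perm F :=
    (hp.monodromyPerm (i (k t0))).comp (FundamentalGroup.map i (k t0))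
  let φT : FundamentalGroup T t0 →* Equiv.Perm F := φ2.comp (FundamentalGroup.map k t0)
  have hval2 : ∀ (γ : Path (k t0) (k t0)) (x : F), φ2 (Path.Homotopic.Quotient.mk γ) x =
      hp.monodromy (Path.Homotopic.Quotient.mk (γ.map i.continuous)) x := fun γ x => rfl
  have hvalT : ∀ (γ : Path t0 t0) (x : F), φT (Path.Homotopic.Quotient.mk γ) x =
      hp.monodromy (Path.Homotopic.Quotient.mk ((γ.map k.continuous).map i.continuous)) x :=
    fun γ x => rfl
  have : Finite F := hfin.to_subtype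
  have htr' : ∀ e e' : F, ∃ g : FundamentalGroup T t0, φT g e = e' := by
    intro e e'
    obtain ⟨γ, Γ, hΓ⟩ := htr e.1 e'.1 e.2 e'.2
    refine ⟨Path.Homotopic.Quotient.mk γ, ?_⟩
    rw [hvalT]
    exact GE_mon hp ((γ.map k.continuous).map i.continuous) e.2 e'.2 Γ hΓ
  have hfree' : ∀ (x : FundamentalGroup B2 (k t0)) (e : F), φ2 x e = e → φ2 x = 1 := by
    intro x e hx
    obtain ⟨γ, rfl⟩ := Path.Homotopic.Quotient.mk_surjective x
    ext e' : 1
    rw [hval2] at hx ⊢
    obtain ⟨Γ, hΓ⟩ := GE_lift hp (γ.map i.continuous) e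
    obtain ⟨Γ', hΓ'⟩ := GE_lift hp (γ.map i.continuous) e'
    have h1 := hfree γ Γ.toContinuousMap Γ'.toContinuousMap hΓ hΓ' (by
      change Γ 1 = Γ 0
      rw [Γ.source, Γ.target]
      exact congrArg Subtype.val hx)
    change Γ' 1 = Γ' 0 at h1
    rw [Γ'.source, Γ'.target] at h1
    exact Subtype.ext h1
  intro e0 e0' he0 he0'
  let e : F := ⟨e0, he0⟩
  let e' : F := ⟨e0', he0'⟩
  let ψ : FundamentalGroup T t0 →* φ2.range := φ2.rangeRestrict.comp (FundamentalGroup.map k t0)
  have hψ : ∀ x : FundamentalGroup T t0, ((ψ x : φ2.range) : Equiv.Perm F) = φT x := fun x => rfl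
  have hsurj : Function.Surjective ψ := by
    rintro ⟨_, x, rfl⟩
    obtain ⟨t, ht⟩ := htr' e (φ2 x e)
    refine ⟨t, Subtype.ext ?_⟩
    rw [hψ]
    have h1 : φ2 ((FundamentalGroup.map k t0 t)⁻¹ * x) e = e := by
      rw [map_mul, map_inv, Equiv.Perm.mul_apply, ← ht]
      exact Equiv.symm_apply_apply _ _
    have h2 := hfree' _ e h1
    rw [map_mul, map_inv, inv_mul_eq_one] at h2
    exact h2
  have hnorm : ∀ H : Subgroup φ2.range, H.Normal := by
    intro H
    have h1 : (H.comap ψ).FiniteIndex := by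
      have h2 : ψ.ker ≤ H.comap ψ := by
        intro x hx
        rw [Subgroup.mem_comap, (MonoidHom.mem_ker).mp hx]
        exact H.one_mem
      exact Subgroup.finiteIndex_of_le h2
    have h3 := (hN _ h1).map ψ hsurj
    rwa [Subgroup.map_comap_eq_self_of_surjective hsurj] at h3
  have hper : ∀ (Q : Type) [CommGroup Q] (φ : φ2.range →* Q), φ = 1 := by
    intro Q _ φ
    have h1 := hperf Q (φ.comp φ2.rangeRestrict)
    ext ⟨_, x, rfl⟩
    exact DFunLike.congr_fun h1 x
  obtain ⟨t, ht⟩ := htr' e e'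
  have h4 : ψ t = 1 := GP hnorm hper (ψ t)
  have h5 : φT t = 1 := by
    rw [← hψ, h4]
    rfl
  rw [h5] at ht
  exact congrArg Subtype.val ht

end LibTN40
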