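import Mathlib

set_option autoImplicit false

/-! TN40 row GP (SHORT, ONLY Mathlib).  A finite perfect group all of whose subgroups are normal is trivial.

PLAN.  All Sylow subgroups are normal, so `G` is nilpotent (`isNilpotent_of_finite_tfae`), so solvable.  The derived subgroup is
everything: apply `hp` to `Abelianization.of : G →* Abelianization G`, it is trivial, so every `g` is in `commutator G`
(`Abelianization.ker_of`), `commutator G = ⊤`.  Then all terms of the derived series are `⊤` (`derivedSeries G k = ⊤` by induction,
`derivedSeries_succ`), and one of them is `⊥` : `⊤ = ⊥`. -/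

namespace LibTN40

theorem GP {G : Type} [Group G] [Finite G] (hN : ∀ H : Subgroup G, H.Normal)
    (hp : ∀ (Q : Type) [CommGroup Q] (φ : G →* Q), φ = 1) (g : G) : g = 1 := by
  rcases subsingleton_or_nontrivial G with h | h
  · exact Subsingleton.elim g 1
  · exfalso
    haveI : Group.IsNilpotent G :=
      (Group.isNilpotent_of_finite_tfae.out 0 2 rfl rfl).mpr fun H _ => hN H
    have h1 := Group.IsSolvable.commutator_lt_top_of_nontrivial G
    have h2 : commutator G = ⊤ := by
      rw [eq_top_iff]
      intro x _
      rw [← Abelianization.ker_of, MonoidHom.mem_ker, hp (Abelianization G) Abelianization.of]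
      rfl
    exact h1.ne h2

end LibTN40
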