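import Pool.Agent.LibTN40.Defs

set_option autoImplicit false

/-! TN40 row TR (SHORT/MEDIUM).  Paths in a convex set of parameters: homotopies.

PLAN.  As `T2_convex`, `T2_tri` in `LibBR40/T2.lean` (copy them): two paths `p, q` in `↥Z` of the form `H ∘ α`, `H ∘ β` with
`α, β` continuous maps of the unit interval to the convex set `R ⊆ ℝ × ℝ` with the same endpoints are homotopic by
`(s, t) ↦ H (lineMap (α t) (β t) s)`, which stays in `Z` since `H '' R ⊆ Z`.  `TR` : the path `(eP a b).trans (eP b c)` is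
`H ∘ β` with `β = ` the concatenation of the two segments, `eP a c` is `H ∘ α` with `α` the segment; then `P.ho` and `P.tr`.
`TR_gen` : any path `γ` in `↥Z` with `γ t = H (α t)`, `α` continuous into `R`, `α 0 = a`, `α 1 = b`, has the value of `eP a b`.
`TR_const` : if `H` is constant on the segment then the path is constant, `P.a (refl) = 1` (as `PSys_refl` in `T2.lean`). -/

namespace LibTN40

open LibBR40

variable {n : ℕ} {Z : Set (Eu n)} {G : Type*} [Group G]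

private theorem tr_hom (P : GSys ↥Z G) (H : ℝ × ℝ → Eu n) (hH : Continuous H) (R : Set (ℝ × ℝ))
    (hR : Convex ℝ R) (hRZ : ∀ q ∈ R, H q ∈ Z) {u v : ↥Z} (p q : Path u v)
    (α β : unitInterval → ℝ × ℝ) (hα : Continuous α) (hβ : Continuous β)
    (hαR : ∀ t, α t ∈ R) (hβR : ∀ t, β t ∈ R) (h0 : α 0 = β 0) (h1 : α 1 = β 1)
    (hp : ∀ t, (p t : Eu n) = H (α t)) (hq : ∀ t, (q t : Eu n) = H (β t)) :
    P.a p = P.a q := by
  apply P.ho
  have hmem : ∀ (t s : unitInterval), AffineMap.lineMap (α s) (β s) (t : ℝ) ∈ R := by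
    intro t s
    have : AffineMap.lineMap (α s) (β s) (t : ℝ) ∈ segment ℝ (α s) (β s) := by
      rw [segment_eq_image_lineMap]
      exact ⟨t, t.2, rfl⟩
    exact hR.segment_subset (hαR s) (hβR s) this
  refine ⟨⟨⟨⟨fun ts => ⟨H (AffineMap.lineMap (α ts.2) (β ts.2) (ts.1 : ℝ)),
    hRZ _ (hmem ts.1 ts.2)⟩, ?_⟩, ?_, ?_⟩, ?_⟩⟩
  · refine Continuous.subtype_mk (hH.comp ?_) _
    simp only [AffineMap.lineMap_apply_module]
    fun_prop
  · intro s
    apply Subtype.ext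
    simp [hp]
  · intro s
    apply Subtype.ext
    simp [hq]
  · intro t s hs
    rcases hs with rfl | rfl
    · apply Subtype.ext
      have e := hp 0
      simp only [Path.source] at e
      simp [e, h0]
    · apply Subtype.ext
      have e := hp 1
      simp only [Path.target] at e
      simp [e, h1]

private noncomputable def trSeg (a b : ℝ × ℝ) : Path a b where
  toFun t := AffineMap.lineMap a b (t : ℝ)
  continuous_toFun := (AffineMap.lineMap_continuous).comp continuous_subtype_val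
  source' := by simp
  target' := by simp

private theorem trSeg_mem {R : Set (ℝ × ℝ)} (hR : Convex ℝ R) {a b : ℝ × ℝ} (ha : a ∈ R)
    (hb : b ∈ R) (t : unitInterval) : AffineMap.lineMap a b (t : ℝ) ∈ R := by
  apply hR.segment_subset ha hb
  rw [segment_eq_image_lineMap]
  exact ⟨t, t.2, rfl⟩

private theorem tr_refl (P : GSys ↥Z G) (y : ↥Z) : P.a (Path.refl y) = 1 := by
  have h1 := P.tr (Path.refl y) (Path.refl y)
  rw [Path.refl_trans_refl] at h1
  exact left_eq_mul.1 h1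

private theorem tr_const (P : GSys ↥Z G) {x y : ↥Z} (p : Path x y) (h : ∀ t, p t = x) :
    P.a p = 1 := by
  have hy : y = x := by rw [← p.target]; exact h 1
  subst hy
  have : p = Path.refl y := by
    ext t
    rw [h t]
    rfl
  rw [this]
  exact tr_refl P y

theorem TR (P : GSys ↥Z G) (H : ℝ × ℝ → Eu n) (hH : Continuous H) (R : Set (ℝ × ℝ))
    (hR : Convex ℝ R) (hRZ : ∀ q ∈ R, H q ∈ Z) {a b c : ℝ × ℝ} (ha : a ∈ R) (hb : b ∈ R)
    (hc : c ∈ R)
    (hab : ∀ τ : ℝ, 0 ≤ τ → τ ≤ 1 → H (AffineMap.lineMap a b τ) ∈ Z)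
    (hbc : ∀ τ : ℝ, 0 ≤ τ → τ ≤ 1 → H (AffineMap.lineMap b c τ) ∈ Z)
    (hac : ∀ τ : ℝ, 0 ≤ τ → τ ≤ 1 → H (AffineMap.lineMap a c τ) ∈ Z)
    (ha' : H a ∈ Z) (hb' : H b ∈ Z) (hc' : H c ∈ Z) :
    P.a (eP H hH a c hac ha' hc') = P.a (eP H hH a b hab ha' hb') * P.a (eP H hH b c hbc hb' hc') := by
  rw [← P.tr]
  refine tr_hom P H hH R hR hRZ _ _ (fun t => AffineMap.lineMap a c (t : ℝ))
    ((trSeg a b).trans (trSeg b c)) ((AffineMap.lineMap_continuous).comp continuous_subtype_val)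
    (Path.continuous _) (fun t => trSeg_mem hR ha hc t) ?_ (by simp) (by simp) (fun t => rfl) ?_
  · intro t
    rw [Path.trans_apply]
    split_ifs
    · exact trSeg_mem hR ha hb _
    · exact trSeg_mem hR hb hc _
  · intro t
    rw [Path.trans_apply, Path.trans_apply]
    split_ifs
    · rfl
    · rfl

theorem TR_gen (P : GSys ↥Z G) (H : ℝ × ℝ → Eu n) (hH : Continuous H) (R : Set (ℝ × ℝ))
    (hR : Convex ℝ R) (hRZ : ∀ q ∈ R, H q ∈ Z) {a b : ℝ × ℝ}
    (hab : ∀ τ : ℝ, 0 ≤ τ → τ ≤ 1 → H (AffineMap.lineMap a b τ) ∈ Z) (ha' : H a ∈ Z) (hb' : H b ∈ Z)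
    (γ : Path (⟨H a, ha'⟩ : ↥Z) ⟨H b, hb'⟩) (α : unitInterval → ℝ × ℝ) (hα : Continuous α)
    (hαR : ∀ t, α t ∈ R) (hα0 : α 0 = a) (hα1 : α 1 = b) (hγ : ∀ t, (γ t : Eu n) = H (α t)) :
    P.a γ = P.a (eP H hH a b hab ha' hb') := by
  have haR : a ∈ R := by rw [← hα0]; exact hαR 0
  have hbR : b ∈ R := by rw [← hα1]; exact hαR 1
  refine tr_hom P H hH R hR hRZ _ _ α (fun t => AffineMap.lineMap a b (t : ℝ)) hα
    ((AffineMap.lineMap_continuous).comp continuous_subtype_val) hαR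
    (fun t => trSeg_mem hR haR hbR t) (by simp [hα0]) (by simp [hα1]) hγ (fun t => rfl)

theorem TR_const (P : GSys ↥Z G) (H : ℝ × ℝ → Eu n) (hH : Continuous H) {a b : ℝ × ℝ}
    (hab : ∀ τ : ℝ, 0 ≤ τ → τ ≤ 1 → H (AffineMap.lineMap a b τ) ∈ Z) (ha' : H a ∈ Z) (hb' : H b ∈ Z)
    (hc : ∀ τ : ℝ, 0 ≤ τ → τ ≤ 1 → H (AffineMap.lineMap a b τ) = H a) :
    P.a (eP H hH a b hab ha' hb') = 1 := by
  refine tr_const P _ ?_
  intro t
  apply Subtype.ext
  exact hc t t.2.1 t.2.2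

end LibTN40
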