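import Pool.Agent.LibTN40.G1
import Pool.Agent.LibTN40.G2
import Pool.Agent.LibTN40.TR

set_option autoImplicit false

/-! TN40 row GV (STRONG).  A van Kampen type gluing lemma.  You may use `G1`, `G2`, `TR`, `TR_gen`, `TR_const`.

`Q` convex, covered by the open sets `O0` and `O j` (the `O j` pairwise disjoint); `P` is a path system on `Z ⊇ Q ∩ O0` which is
trivial on the loops in the path connected sets `T j ⊇ Q ∩ O0 ∩ O j`.  Then `P` is trivial on the loops in `Q ∩ O0`.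

PLAN.  `S = Q ∩ O0 ⊆ Z`.  For every `j` fix a base point `t j ∈ T j`, and for `y ∈ T j` a path `c j y` in `T j` from `t j` to `y` (as a path
in `↥Z`).  `g : ↥Z → G`: `g y = P.a (c j y)` if `y ∈ Q ∩ O0 ∩ O j` for some `j` (unique, since the `O j` are disjoint), `g y = 1` if there is
no such `j`.  For a path `p` from `y` to `z` in `↥Z` put `b p = g y * P.a p * (g z)⁻¹`.
(A) if `p` stays in `Q ∩ O0 ∩ O j` then `b p = 1`: `(c j y).trans (p.trans (c j z).symm)` is a loop at `t j` in `T j`, so `P.a` of it is `1`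
(`P.a` of `symm` is the inverse; from `tr`, `ho`, `Path.Homotopy.reflTransSymm`, as `PSys_symm` in `LibBR40/T2.lean`).
(B) `H : ℝ × ℝ → Eu n`, `H (s, t) = AffineMap.lineMap (γ (projIcc s)) x (max 0 (min t 1))`, continuous, values in `Q` (convex, `x ∈ Q`),
`H (s, 0) = γ (s)`, `H (s, 1) = x`, `H (0, t) = H (1, t) = x`.
(C) `G2` with the cover `Option ι` (`none ↦ O0`, `some j ↦ O j`) gives `N`.  For a grid edge `(a, b)` let
`e a b = if h : (∀ τ ∈ [0, 1], H (lineMap a b τ) ∈ S) then b (eP H a b ..) else 1`; `h i k = e (i/N, k/N) ((i+1)/N, k/N)`,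
`v i k = e (i/N, k/N) (i/N, (k+1)/N)`.
(D) the square relation `sq` of `G1` : if `H` maps the small square to `O0` (so to `S ⊆ Z`) all four edges are of the first kind and
`TR` for `R` = the small square (with the diagonal as third side, twice) gives the relation of `P.a`, hence of `b` (the `g` cancel).  If `H`
maps the small square to `O j`, each edge has `e = 1`: either it is of the second kind, or it stays in `Q ∩ O0 ∩ O j` and (A) applies.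
(E) left, right and top edges: `H` is constant `= x ∈ S`, so `e = g x * 1 * (g x)⁻¹ = 1` (`TR_const`).  So `G1` gives `∏_{i<N} h i 0 = 1`.
(F) the bottom row: all edges are of the first kind (`H (s, 0) = γ s ∈ S`), the product telescopes: by induction on `M ≤ N`
(`TR` for `R` = `Icc 0 1 ×ˢ {0}`) `∏_{i<M} h i 0 = g x * P.a (eP (0,0) (M/N,0)) * (g (H (M/N, 0)))⁻¹` (for `M = 0` `TR_const`); for `M = N`,
`TR_gen` with `α t = (t, 0)` identifies `P.a (eP (0,0) (1,0))` with `P.a γ` (endpoints: `H (0, 0) = x = H (1, 0)`, use `Path.cast` or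
generalise / `subst`).  So `g x * P.a γ * (g x)⁻¹ = 1`, `P.a γ = 1`. -/

namespace LibTN40

open LibBR40

section aux

variable {n : ℕ} {Z : Set (Eu n)} {G : Type*} [Group G]

private theorem GV_refl (P : GSys ↥Z G) (y : ↥Z) : P.a (Path.refl y) = 1 := by
  have h := P.tr (Path.refl y) (Path.refl y)
  rw [Path.refl_trans_refl] at h
  exact mul_eq_left.1 h.symm

private theorem GV_symm (P : GSys ↥Z G) {y z : ↥Z} (p : Path y z) : P.a p.symm = (P.a p)⁻¹ := by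
  have h1 : P.a (p.trans p.symm) = P.a (Path.refl y) :=
    P.ho _ _ ⟨(Path.Homotopy.reflTransSymm p).symm⟩
  rw [P.tr, GV_refl] at h1
  exact (inv_eq_of_mul_eq_one_right h1).symm

private theorem GV_cast (P : GSys ↥Z G) {x y x' y' : ↥Z} (p : Path x y) (hx : x' = x) (hy : y' = y) :
    P.a (p.cast hx hy) = P.a p := by
  subst hx
  subst hy
  rw [Path.cast_rfl_rfl]

private theorem GV_g {ι : Type*} (P : GSys ↥Z G) (S : Set (Eu n)) (O T : ι → Set (Eu n))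
    (hdis : ∀ i j, i ≠ j → Disjoint (O i) (O j)) (hT : ∀ j, IsPathConnected (T j))
    (hTZ : ∀ j, T j ⊆ Z) (hN : ∀ j, ∀ y ∈ S, y ∈ O j → y ∈ T j)
    (hloop : ∀ j, ∀ (y : ↥Z) (γ : Path y y), (∀ t, (γ t : Eu n) ∈ T j) → P.a γ = 1) :
    ∃ g : ↥Z → G, ∀ (j : ι) (y z : ↥Z) (p : Path y z),
      (∀ t, (p t : Eu n) ∈ S ∧ (p t : Eu n) ∈ O j) → g y * P.a p * (g z)⁻¹ = 1 := by
  classical
  choose t ht htj using hT
  have hc : ∀ j (y : ↥Z), (y : Eu n) ∈ T j →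
      ∃ c : Path (⟨t j, hTZ j (ht j)⟩ : ↥Z) y, ∀ s, (c s : Eu n) ∈ T j := by
    intro j y hy
    obtain ⟨γ, hγ⟩ := htj j hy
    exact ⟨{ toFun := fun s => ⟨γ s, hTZ j (hγ s)⟩
             continuous_toFun := γ.continuous.subtype_mk _
             source' := Subtype.ext γ.source
             target' := Subtype.ext γ.target }, hγ⟩
  choose c hc using hc
  obtain ⟨g, hg⟩ : ∃ g : ↥Z → G, ∀ j (y : ↥Z) (_ : (y : Eu n) ∈ O j) (hy : (y : Eu n) ∈ T j),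
      g y = P.a (c j y hy) := by
    refine ⟨fun y => if h : ∃ j, (y : Eu n) ∈ O j ∧ (y : Eu n) ∈ T j then
      P.a (c h.choose y h.choose_spec.2) else 1, ?_⟩
    intro j y hyO hyT
    have h : ∃ j, (y : Eu n) ∈ O j ∧ (y : Eu n) ∈ T j := ⟨j, hyO, hyT⟩
    have hj : h.choose = j := by
      by_contra hne
      exact Set.disjoint_left.1 (hdis _ _ hne) h.choose_spec.1 hyO
    have key : ∀ j' (_ : j' = j) (h' : (y : Eu n) ∈ T j'), P.a (c j' y h') = P.a (c j y hyT) := by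
      rintro _ rfl _
      rfl
    simp only
    rw [dif_pos h]
    exact key _ hj _
  refine ⟨g, fun j y z p hp => ?_⟩
  have hpT : ∀ s, (p s : Eu n) ∈ T j := fun s => hN j _ (hp s).1 (hp s).2
  have hy0 := hp 0
  have hz0 := hp 1
  have hyT := hpT 0
  have hzT := hpT 1
  rw [p.source] at hy0 hyT
  rw [p.target] at hz0 hzT
  rw [hg j y hy0.2 hyT, hg j z hz0.2 hzT, ← GV_symm, mul_assoc, ← P.tr, ← P.tr]
  refine hloop j _ _ fun s => ?_
  rw [Path.trans_apply]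
  split_ifs
  · exact hc _ _ _ _
  · rw [Path.trans_apply]
    split_ifs
    · exact hpT _
    · exact hc _ _ _ _

private theorem GV_e {ι : Type*} (P : GSys ↥Z G) (S : Set (Eu n)) (hS : S ⊆ Z)
    (O : ι → Set (Eu n)) (H : ℝ × ℝ → Eu n) (hH : Continuous H) (g : ↥Z → G)
    (hg : ∀ (j : ι) (y z : ↥Z) (p : Path y z),
      (∀ t, (p t : Eu n) ∈ S ∧ (p t : Eu n) ∈ O j) → g y * P.a p * (g z)⁻¹ = 1) :
    ∃ e : ℝ × ℝ → ℝ × ℝ → G,
      (∀ (a b : ℝ × ℝ) (_ : ∀ τ : ℝ, 0 ≤ τ → τ ≤ 1 → H (AffineMap.lineMap a b τ) ∈ S)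
        (hz : ∀ τ : ℝ, 0 ≤ τ → τ ≤ 1 → H (AffineMap.lineMap a b τ) ∈ Z) (ha : H a ∈ Z)
        (hb : H b ∈ Z), e a b = g ⟨H a, ha⟩ * P.a (eP H hH a b hz ha hb) * (g ⟨H b, hb⟩)⁻¹) ∧
      ∀ (j : ι) (a b : ℝ × ℝ), (∀ τ : ℝ, 0 ≤ τ → τ ≤ 1 → H (AffineMap.lineMap a b τ) ∈ O j) →
        e a b = 1 := by
  classical
  have h0 : ∀ {a b : ℝ × ℝ}, (∀ τ : ℝ, 0 ≤ τ → τ ≤ 1 → H (AffineMap.lineMap a b τ) ∈ S) →
      H a ∈ Z := by
    intro a b h
    have h2 := hS (h 0 le_rfl zero_le_one)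
    rwa [AffineMap.lineMap_apply_zero] at h2
  have h1 : ∀ {a b : ℝ × ℝ}, (∀ τ : ℝ, 0 ≤ τ → τ ≤ 1 → H (AffineMap.lineMap a b τ) ∈ S) →
      H b ∈ Z := by
    intro a b h
    have h2 := hS (h 1 zero_le_one le_rfl)
    rwa [AffineMap.lineMap_apply_one] at h2
  refine ⟨fun a b => if h : ∀ τ : ℝ, 0 ≤ τ → τ ≤ 1 → H (AffineMap.lineMap a b τ) ∈ S then
    g ⟨H a, h0 h⟩ * P.a (eP H hH a b (fun τ u v => hS (h τ u v)) (h0 h) (h1 h)) *
      (g ⟨H b, h1 h⟩)⁻¹ else 1, ?_, ?_⟩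
  · intro a b h hz ha hb
    exact dif_pos h
  · intro j a b hj
    simp only
    by_cases h : ∀ τ : ℝ, 0 ≤ τ → τ ≤ 1 → H (AffineMap.lineMap a b τ) ∈ S
    · rw [dif_pos h]
      exact hg j _ _ _ fun t => ⟨h t t.2.1 t.2.2, hj t t.2.1 t.2.2⟩
    · rw [dif_neg h]

private theorem GV_core {ι : Type*} (P : GSys ↥Z G) (Q O0 : Set (Eu n)) (O : ι → Set (Eu n))
    (hO0 : IsOpen O0) (hO : ∀ j, IsOpen (O j)) (hcov : ∀ y ∈ Q, y ∈ O0 ∨ ∃ j, y ∈ O j)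
    (h0Z : Q ∩ O0 ⊆ Z) (g : ↥Z → G)
    (hg : ∀ (j : ι) (y z : ↥Z) (p : Path y z),
      (∀ t, (p t : Eu n) ∈ Q ∩ O0 ∧ (p t : Eu n) ∈ O j) → g y * P.a p * (g z)⁻¹ = 1)
    (H : ℝ × ℝ → Eu n) (hH : Continuous H) (hHQ : ∀ q, H q ∈ Q) (x0 : Eu n)
    (hbot : ∀ s : ℝ, 0 ≤ s → s ≤ 1 → H (s, 0) ∈ O0)
    (hl : ∀ t : ℝ, 0 ≤ t → t ≤ 1 → H (0, t) = x0) (hr : ∀ t : ℝ, 0 ≤ t → t ≤ 1 → H (1, t) = x0)
    (ht : ∀ s : ℝ, 0 ≤ s → s ≤ 1 → H (s, 1) = x0)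
    (hz : ∀ τ : ℝ, 0 ≤ τ → τ ≤ 1 → H (AffineMap.lineMap ((0, 0) : ℝ × ℝ) (1, 0) τ) ∈ Z)
    (ha : H (0, 0) ∈ Z) (hb : H (1, 0) ∈ Z) :
    P.a (eP H hH (0, 0) (1, 0) hz ha hb) = 1 := by
  obtain ⟨e, he, he2⟩ := GV_e P (Q ∩ O0) h0Z O H hH g hg
  have hx0 : x0 ∈ Q ∩ O0 := by
    rw [← hl 0 le_rfl zero_le_one]
    exact ⟨hHQ _, hbot 0 le_rfl zero_le_one⟩
  have hmem : ∀ (R : Set (ℝ × ℝ)), Convex ℝ R → ∀ a ∈ R, ∀ b ∈ R, ∀ τ : ℝ, 0 ≤ τ → τ ≤ 1 →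
      AffineMap.lineMap a b τ ∈ R := fun R hR a ha b hb τ h0 h1 =>
    hR.lineMap_mem ha hb ⟨h0, h1⟩
  have econst : ∀ (R : Set (ℝ × ℝ)), Convex ℝ R → (∀ q ∈ R, H q = x0) → ∀ a ∈ R, ∀ b ∈ R,
      e a b = 1 := by
    intro R hR hRx a ha b hb
    have h1 : ∀ τ : ℝ, 0 ≤ τ → τ ≤ 1 → H (AffineMap.lineMap a b τ) = x0 := fun τ u v =>
      hRx _ (hmem R hR a ha b hb τ u v)
    have h2 : ∀ τ : ℝ, 0 ≤ τ → τ ≤ 1 → H (AffineMap.lineMap a b τ) ∈ Q ∩ O0 := fun τ u v => by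
      rw [h1 τ u v]
      exact hx0
    have h3 : H a ∈ Z := by
      rw [hRx a ha]
      exact h0Z hx0
    have h4 : H b ∈ Z := by
      rw [hRx b hb]
      exact h0Z hx0
    rw [he a b h2 (fun τ u v => h0Z (h2 τ u v)) h3 h4,
      TR_const P H hH (fun τ u v => h0Z (h2 τ u v)) h3 h4
        (fun τ u v => (h1 τ u v).trans (hRx a ha).symm)]
    have h5 : (⟨H a, h3⟩ : ↥Z) = ⟨H b, h4⟩ := Subtype.ext ((hRx a ha).trans (hRx b hb).symm)
    rw [h5, mul_one, mul_inv_cancel]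
  have etri : ∀ (R : Set (ℝ × ℝ)), Convex ℝ R → (∀ q ∈ R, H q ∈ O0) → ∀ a ∈ R, ∀ b ∈ R,
      ∀ c ∈ R, e a c = e a b * e b c := by
    intro R hR hRO a ha b hb c hc
    have hRS : ∀ q ∈ R, H q ∈ Q ∩ O0 := fun q hq => ⟨hHQ q, hRO q hq⟩
    have h1 : ∀ a ∈ R, ∀ b ∈ R, ∀ τ : ℝ, 0 ≤ τ → τ ≤ 1 → H (AffineMap.lineMap a b τ) ∈ Q ∩ O0 :=
      fun a ha b hb τ u v => hRS _ (hmem R hR a ha b hb τ u v)
    have h2 : ∀ q ∈ R, H q ∈ Z := fun q hq => h0Z (hRS q hq)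
    rw [he a c (h1 a ha c hc) (fun τ u v => h0Z (h1 a ha c hc τ u v)) (h2 a ha) (h2 c hc),
      he a b (h1 a ha b hb) (fun τ u v => h0Z (h1 a ha b hb τ u v)) (h2 a ha) (h2 b hb),
      he b c (h1 b hb c hc) (fun τ u v => h0Z (h1 b hb c hc τ u v)) (h2 b hb) (h2 c hc),
      TR P H hH R hR h2 ha hb hc (fun τ u v => h0Z (h1 a ha b hb τ u v))
        (fun τ u v => h0Z (h1 b hb c hc τ u v)) (fun τ u v => h0Z (h1 a ha c hc τ u v))
        (h2 a ha) (h2 b hb) (h2 c hc)]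
    group
  obtain ⟨N, hN, hgrid⟩ := G2 (ι := Option ι) H hH (fun j => j.elim O0 O)
    (fun j => by cases j with
      | none => exact hO0
      | some j => exact hO j)
    (fun s t _ _ _ _ => by
      rcases hcov _ (hHQ (s, t)) with h | ⟨j, h⟩
      · exact ⟨none, h⟩
      · exact ⟨some j, h⟩)
  have hN0 : (0 : ℝ) < N := Nat.cast_pos.2 hN
  let A : ℕ → ℕ → ℝ × ℝ := fun i k => ((i : ℝ) / N, (k : ℝ) / N)
  have hstep : ∀ i : ℕ, (i : ℝ) / N ≤ (i + 1 : ℕ) / N := by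
    intro i
    push_cast
    gcongr
    linarith
  have h01 : ∀ i : ℕ, i ≤ N → 0 ≤ (i : ℝ) / N ∧ (i : ℝ) / N ≤ 1 := by
    intro i hi
    refine ⟨by positivity, ?_⟩
    rw [div_le_one hN0]
    exact_mod_cast hi
  have hNN : ((N : ℕ) : ℝ) / N = 1 := div_self hN0.ne'
  have sq : ∀ i < N, ∀ k < N, e (A i k) (A (i + 1) k) * e (A (i + 1) k) (A (i + 1) (k + 1)) =
      e (A i k) (A i (k + 1)) * e (A i (k + 1)) (A (i + 1) (k + 1)) := by
    intro i hi k hk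
    obtain ⟨j, hj⟩ := hgrid i hi k hk
    have hR : Convex ℝ (Set.Icc ((i : ℝ) / N) ((i + 1 : ℕ) / N) ×ˢ
        Set.Icc ((k : ℝ) / N) ((k + 1 : ℕ) / N)) := (convex_Icc _ _).prod (convex_Icc _ _)
    have m1 : A i k ∈ Set.Icc ((i : ℝ) / N) ((i + 1 : ℕ) / N) ×ˢ
        Set.Icc ((k : ℝ) / N) ((k + 1 : ℕ) / N) := ⟨⟨le_rfl, hstep i⟩, ⟨le_rfl, hstep k⟩⟩
    have m2 : A (i + 1) k ∈ Set.Icc ((i : ℝ) / N) ((i + 1 : ℕ) / N) ×ˢ
        Set.Icc ((k : ℝ) / N) ((k + 1 : ℕ) / N) := ⟨⟨hstep i, le_rfl⟩, ⟨le_rfl, hstep k⟩⟩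
    have m3 : A i (k + 1) ∈ Set.Icc ((i : ℝ) / N) ((i + 1 : ℕ) / N) ×ˢ
        Set.Icc ((k : ℝ) / N) ((k + 1 : ℕ) / N) := ⟨⟨le_rfl, hstep i⟩, ⟨hstep k, le_rfl⟩⟩
    have m4 : A (i + 1) (k + 1) ∈ Set.Icc ((i : ℝ) / N) ((i + 1 : ℕ) / N) ×ˢ
        Set.Icc ((k : ℝ) / N) ((k + 1 : ℕ) / N) := ⟨⟨hstep i, le_rfl⟩, ⟨hstep k, le_rfl⟩⟩
    cases j with
    | none =>
      have hRO : ∀ q ∈ Set.Icc ((i : ℝ) / N) ((i + 1 : ℕ) / N) ×ˢ
          Set.Icc ((k : ℝ) / N) ((k + 1 : ℕ) / N), H q ∈ O0 := fun q hq =>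
        hj q.1 q.2 hq.1.1 hq.1.2 hq.2.1 hq.2.2
      rw [← etri _ hR hRO _ m1 _ m2 _ m4, ← etri _ hR hRO _ m1 _ m3 _ m4]
    | some j =>
      have hRO : ∀ q ∈ Set.Icc ((i : ℝ) / N) ((i + 1 : ℕ) / N) ×ˢ
          Set.Icc ((k : ℝ) / N) ((k + 1 : ℕ) / N), H q ∈ O j := fun q hq =>
        hj q.1 q.2 hq.1.1 hq.1.2 hq.2.1 hq.2.2
      rw [he2 j _ _ fun τ u v => hRO _ (hmem _ hR _ m1 _ m2 τ u v),
        he2 j _ _ fun τ u v => hRO _ (hmem _ hR _ m2 _ m4 τ u v),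
        he2 j _ _ fun τ u v => hRO _ (hmem _ hR _ m1 _ m3 τ u v),
        he2 j _ _ fun τ u v => hRO _ (hmem _ hR _ m3 _ m4 τ u v)]
  have hG := G1 N (fun i k => e (A i k) (A (i + 1) k)) (fun i k => e (A i k) (A i (k + 1))) sq
  have hright : ((List.range N).map fun k => e (A N k) (A N (k + 1))).prod = 1 := by
    refine List.prod_eq_one ?_
    intro y hy
    obtain ⟨k, hk, rfl⟩ := List.mem_map.1 hy
    have hk' := List.mem_range.1 hk
    refine econst (({1} : Set ℝ) ×ˢ Set.Icc 0 1) ((convex_singleton 1).prod (convex_Icc 0 1)) ?_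
      (A N k) ⟨hNN, h01 k hk'.le⟩ (A N (k + 1)) ⟨hNN, h01 (k + 1) hk'⟩
    rintro ⟨s, t⟩ ⟨hs, ht1, ht2⟩
    obtain rfl : s = 1 := hs
    exact hr t ht1 ht2
  have hleft : ((List.range N).map fun k => e (A 0 k) (A 0 (k + 1))).prod = 1 := by
    refine List.prod_eq_one ?_
    intro y hy
    obtain ⟨k, hk, rfl⟩ := List.mem_map.1 hy
    have hk' := List.mem_range.1 hk
    have h00 : ((0 : ℕ) : ℝ) / N = 0 := by simp
    refine econst (({0} : Set ℝ) ×ˢ Set.Icc 0 1) ((convex_singleton 0).prod (convex_Icc 0 1)) ?_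
      (A 0 k) ⟨h00, h01 k hk'.le⟩ (A 0 (k + 1)) ⟨h00, h01 (k + 1) hk'⟩
    rintro ⟨s, t⟩ ⟨hs, ht1, ht2⟩
    obtain rfl : s = 0 := hs
    exact hl t ht1 ht2
  have htop : ((List.range N).map fun i => e (A i N) (A (i + 1) N)).prod = 1 := by
    refine List.prod_eq_one ?_
    intro y hy
    obtain ⟨k, hk, rfl⟩ := List.mem_map.1 hy
    have hk' := List.mem_range.1 hk
    refine econst (Set.Icc 0 1 ×ˢ ({1} : Set ℝ)) ((convex_Icc 0 1).prod (convex_singleton 1)) ?_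
      (A k N) ⟨h01 k hk'.le, hNN⟩ (A (k + 1) N) ⟨h01 (k + 1) hk', hNN⟩
    rintro ⟨s, t⟩ ⟨⟨hs1, hs2⟩, ht1⟩
    obtain rfl : t = 1 := ht1
    exact ht s hs1 hs2
  have hbotp : ∀ M : ℕ, M ≤ N → ((List.range M).map fun i => e (A i 0) (A (i + 1) 0)).prod =
      e (A 0 0) (A M 0) := by
    have h00 : ((0 : ℕ) : ℝ) / N = 0 := by simp
    have hR : Convex ℝ (Set.Icc (0 : ℝ) 1 ×ˢ ({0} : Set ℝ)) :=
      (convex_Icc 0 1).prod (convex_singleton 0)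
    have hRO : ∀ q ∈ Set.Icc (0 : ℝ) 1 ×ˢ ({0} : Set ℝ), H q ∈ O0 := by
      rintro ⟨s, t⟩ ⟨⟨hs1, hs2⟩, ht1⟩
      obtain rfl : t = 0 := ht1
      exact hbot s hs1 hs2
    intro M
    induction M with
    | zero =>
      intro _
      rw [List.range_zero, List.map_nil, List.prod_nil]
      refine (econst ({((0 : ℝ), (0 : ℝ))} : Set (ℝ × ℝ)) (convex_singleton _) ?_ _ ?_ _ ?_).symm
      · rintro q rfl
        exact hl 0 le_rfl zero_le_one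
      · exact Prod.ext h00 h00
      · exact Prod.ext h00 h00
    | succ M ih =>
      intro hM
      rw [List.range_succ, List.map_append, List.prod_append, ih (by omega), List.map_singleton,
        List.prod_singleton]
      exact (etri _ hR hRO (A 0 0) ⟨h01 0 (by omega), h00⟩ (A M 0) ⟨h01 M (by omega), h00⟩
        (A (M + 1) 0) ⟨h01 (M + 1) hM, h00⟩).symm
  have hfin : e (A 0 0) (A N 0) = 1 := by
    rw [← hbotp N le_rfl]
    rw [hright, hleft, htop, mul_one, mul_one] at hG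
    exact hG
  have hA0 : A 0 0 = (0, 0) := Prod.ext (by simp [A]) (by simp [A])
  have hA1 : A N 0 = (1, 0) := Prod.ext hNN (by simp [A])
  rw [hA0, hA1] at hfin
  have hseg : ∀ τ : ℝ, 0 ≤ τ → τ ≤ 1 →
      H (AffineMap.lineMap ((0, 0) : ℝ × ℝ) (1, 0) τ) ∈ Q ∩ O0 := by
    intro τ u v
    refine ⟨hHQ _, ?_⟩
    have h1 : AffineMap.lineMap ((0, 0) : ℝ × ℝ) (1, 0) τ = (τ, 0) := by
      rw [AffineMap.lineMap_apply_module]
      simp
    rw [h1]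
    exact hbot τ u v
  rw [he (0, 0) (1, 0) hseg hz ha hb] at hfin
  have h5 : (⟨H (0, 0), ha⟩ : ↥Z) = ⟨H (1, 0), hb⟩ :=
    Subtype.ext ((hl 0 le_rfl zero_le_one).trans (hr 0 le_rfl zero_le_one).symm)
  have h6 : g ⟨H (0, 0), ha⟩ = g ⟨H (1, 0), hb⟩ := congrArg g h5
  rw [h6, mul_inv_eq_one] at hfin
  exact mul_eq_left.1 hfin

end aux

theorem GV {n : ℕ} {G : Type*} [Group G] {ι : Type*} (Z Q O0 : Set (Eu n)) (P : GSys ↥Z G)
    (O T : ι → Set (Eu n)) (hQ : Convex ℝ Q) (hO0 : IsOpen O0) (hO : ∀ j, IsOpen (O j))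
    (hcov : ∀ y ∈ Q, y ∈ O0 ∨ ∃ j, y ∈ O j) (hdis : ∀ i j, i ≠ j → Disjoint (O i) (O j))
    (h0Z : Q ∩ O0 ⊆ Z) (hT : ∀ j, IsPathConnected (T j)) (hTZ : ∀ j, T j ⊆ Z)
    (hN : ∀ j, ∀ y ∈ Q, y ∈ O0 → y ∈ O j → y ∈ T j)
    (hloop : ∀ j, ∀ (y : ↥Z) (γ : Path y y), (∀ t, (γ t : Eu n) ∈ T j) → P.a γ = 1)
    (x : ↥Z) (γ : Path x x) (hγ : ∀ t, (γ t : Eu n) ∈ Q ∩ O0) : P.a γ = 1 := by
  obtain ⟨g, hg⟩ := GV_g P (Q ∩ O0) O T hdis hT hTZ (fun j y hy hyO => hN j y hy.1 hy.2 hyO) hloop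
  let pr : ℝ → unitInterval := Set.projIcc (0 : ℝ) 1 zero_le_one
  have hpr : Continuous pr := continuous_projIcc
  let H : ℝ × ℝ → Eu n := fun q =>
    AffineMap.lineMap (γ (pr q.1) : Eu n) (x : Eu n) (max 0 (min q.2 1))
  have hxQ : (x : Eu n) ∈ Q ∩ O0 := by
    have h := hγ 0
    rwa [γ.source] at h
  have hH : Continuous H := by
    have h1 : Continuous fun q : ℝ × ℝ => (γ (pr q.1) : Eu n) :=
      continuous_subtype_val.comp (γ.continuous.comp (hpr.comp continuous_fst))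
    have h2 : Continuous fun q : ℝ × ℝ => max 0 (min q.2 1) :=
      continuous_const.max (continuous_snd.min continuous_const)
    have h3 : H = fun q : ℝ × ℝ => (1 - max 0 (min q.2 1)) • (γ (pr q.1) : Eu n) +
        max 0 (min q.2 1) • (x : Eu n) := by
      funext q
      exact AffineMap.lineMap_apply_module _ _ _
    rw [h3]
    exact ((continuous_const.sub h2).smul h1).add (h2.smul continuous_const)
  have hHQ : ∀ q, H q ∈ Q := fun q => hQ.lineMap_mem (hγ _).1 hxQ.1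
    ⟨le_max_left _ _, max_le zero_le_one (min_le_right _ _)⟩
  have hpr0 : pr 0 = 0 := Set.projIcc_left zero_le_one
  have hpr1 : pr 1 = 1 := Set.projIcc_right zero_le_one
  have hH0 : ∀ s : ℝ, H (s, 0) = (γ (pr s) : Eu n) := by
    intro s
    show AffineMap.lineMap (γ (pr s) : Eu n) (x : Eu n) (max 0 (min (0 : ℝ) 1)) = _
    rw [min_eq_left zero_le_one, max_self, AffineMap.lineMap_apply_zero]
  have hH1 : ∀ s : ℝ, H (s, 1) = (x : Eu n) := by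
    intro s
    show AffineMap.lineMap (γ (pr s) : Eu n) (x : Eu n) (max 0 (min (1 : ℝ) 1)) = _
    rw [min_self, max_eq_right zero_le_one, AffineMap.lineMap_apply_one]
  have hHl : ∀ t : ℝ, H (0, t) = (x : Eu n) := by
    intro t
    show AffineMap.lineMap (γ (pr 0) : Eu n) (x : Eu n) (max 0 (min t 1)) = _
    rw [hpr0, γ.source, AffineMap.lineMap_same_apply]
  have hHr : ∀ t : ℝ, H (1, t) = (x : Eu n) := by
    intro t
    show AffineMap.lineMap (γ (pr 1) : Eu n) (x : Eu n) (max 0 (min t 1)) = _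
    rw [hpr1, γ.target, AffineMap.lineMap_same_apply]
  have hlm : ∀ τ : ℝ, AffineMap.lineMap ((0, 0) : ℝ × ℝ) (1, 0) τ = (τ, 0) := by
    intro τ
    rw [AffineMap.lineMap_apply_module]
    simp
  have hz : ∀ τ : ℝ, 0 ≤ τ → τ ≤ 1 → H (AffineMap.lineMap ((0, 0) : ℝ × ℝ) (1, 0) τ) ∈ Z := by
    intro τ _ _
    rw [hlm, hH0]
    exact (γ _).2
  have ha : H (0, 0) ∈ Z := by
    rw [hHl]
    exact x.2
  have hb : H (1, 0) ∈ Z := by
    rw [hHr]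
    exact x.2
  have hcore := GV_core P Q O0 O hO0 hO hcov h0Z g hg H hH hHQ (x : Eu n)
    (fun s _ _ => by
      rw [hH0]
      exact (hγ _).2)
    (fun t _ _ => hHl t) (fun t _ _ => hHr t) (fun s _ _ => hH1 s) hz ha hb
  have hxa : (⟨H (0, 0), ha⟩ : ↥Z) = x := Subtype.ext (hHl 0)
  have hxb : (⟨H (1, 0), hb⟩ : ↥Z) = x := Subtype.ext (hHr 0)
  rw [← GV_cast P γ hxa hxb, ← hcore]
  refine TR_gen P H hH (Set.Icc (0 : ℝ) 1 ×ˢ ({0} : Set ℝ))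
    ((convex_Icc 0 1).prod (convex_singleton 0)) ?_ hz ha hb (γ.cast hxa hxb)
    (fun t => ((t : ℝ), 0)) ?_ ?_ ?_ ?_ ?_
  · rintro ⟨s, t⟩ ⟨_, ht⟩
    obtain rfl : t = 0 := ht
    rw [hH0]
    exact (γ _).2
  · exact continuous_subtype_val.prodMk continuous_const
  · exact fun t => ⟨t.2, rfl⟩
  · simp
  · simp
  · intro t
    refine Eq.trans ?_ (hH0 _).symm
    show (γ t : Eu n) = _
    rw [show pr (t : ℝ) = t from Set.projIcc_val zero_le_one t]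

end LibTN40
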