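import Pool.Agent.LibTN40.CC
import Pool.Agent.LibBR40.N1

set_option autoImplicit false

/-! TN40 row MI (STRONG).  At a branch point of minimal multiplicity all branch points nearby are totally ramified.
You may use `CC` and everything of `LibBR40` (`N1`, `N3_dense`).

PLAN.  Let `S` be the set of `d : ℕ` for which there are `x, r, U` with `0 < r`, `OD f U (Cube (f x) r)`, `x ∈ U ⊆ D`,
`∀ y ∈ U, f y = f x → y = x`, `x ∈ Br f U` and `∀ y ∈ Cube (f x) r, y ∉ f '' Br f U → (U ∩ f ⁻¹' {y}).ncard = d`.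
`S` is not empty: `N1` at a point of `B` with `W = D` gives `r = r0` and `U`; `x ∈ Br f U` because `x ∈ B` (every open `O ⊆ U` is
`⊆ D`); `CC` with `hconn` gives `d`.  Let `d = sInf S` (`Nat.find`) with its `x, r, U`.
Claim: if `z ∈ Br f U`, `w ∈ U`, `f w = f z` then `w = z`.  Suppose `w ≠ z`.  Take disjoint open `W1 ∋ z`, `W2 ∋ w` inside `U`
(`t2_separation`, intersected with `U`).  `N1` at `z` with `W = W1` gives `r0'`; choose `0 < ρ ≤ r0'` with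
`Cube (f z) ρ ⊆ f '' W2 ∩ Cube (f x) r` (an open set containing `f z = f w`; small cubes are in small balls, compare
`LibBR40.exists_Cube` in `LibBR40/Main.lean`, you may copy its proof) and let `U'` be the corresponding set, `U' ⊆ W1`.
`z ∈ Br f U'` since `z ∈ Br f U` (open subsets of `U'` are open subsets of `U`), and `Br f U' ⊆ Br f U` (if `y ∈ Br f U'` and `O ⊆ U` is
open with `y ∈ O` and `f` injective on `O`, then `f` is injective on `O ∩ U'`).  `CC` gives `d'` for `U'`, so `d' ∈ S`, `d ≤ d'`.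
By `N3_dense` (for `U`, `O = Cube (f z) ρ`) there is `y ∈ Cube (f z) ρ`, `y ∉ f '' Br f U`, so also `y ∉ f '' Br f U'`.  The fibre
`U ∩ f ⁻¹' {y}` has `d` points; it contains the `d'` points of `U' ∩ f ⁻¹' {y} ⊆ W1` and a point of `W2`: `d ≥ d' + 1`.
Contradiction. -/

namespace LibTN40

open LibBR40

private theorem MI_cube {n : ℕ} {Q : Set (Eu n)} (hQ : IsOpen Q) {x : Eu n} (hx : x ∈ Q) :
    ∃ s > (0 : ℝ), Cube x s ⊆ Q := by
  obtain ⟨ε, hε, hb⟩ := Metric.isOpen_iff.1 hQ x hx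
  refine ⟨ε / (n + 1), by positivity, fun y hy => hb ?_⟩
  rw [Metric.mem_ball, EuclideanSpace.dist_eq]
  have h1 : ∀ i, dist (y i) (x i) ^ 2 ≤ (ε / (n + 1)) ^ 2 := by
    intro i
    have := hy i
    rw [Real.dist_eq]
    exact pow_le_pow_left₀ (abs_nonneg _) this.le 2
  have h2 : ∑ i : Fin n, dist (y i) (x i) ^ 2 ≤ n * (ε / (n + 1)) ^ 2 := by
    calc ∑ i : Fin n, dist (y i) (x i) ^ 2 ≤ ∑ _i : Fin n, (ε / (n + 1)) ^ 2 :=
          Finset.sum_le_sum fun i _ => h1 i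
      _ = n * (ε / (n + 1)) ^ 2 := by simp
  have h3 : (n : ℝ) * (ε / (n + 1)) ^ 2 < ε ^ 2 := by
    have hn : (0 : ℝ) < (n : ℝ) + 1 := by positivity
    rw [div_pow, mul_div_assoc', div_lt_iff₀ (by positivity)]
    have hnn : (0 : ℝ) ≤ n := Nat.cast_nonneg n
    nlinarith [sq_nonneg ε, sq_pos_of_pos hε, mul_nonneg hnn (sq_nonneg ε)]
  calc √(∑ i : Fin n, dist (y i) (x i) ^ 2) < √(ε ^ 2) :=
        Real.sqrt_lt_sqrt (Finset.sum_nonneg fun i _ => sq_nonneg _) (lt_of_le_of_lt h2 h3)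
    _ = ε := Real.sqrt_sq hε.le

theorem MI {n : ℕ} (D : Set (Eu n)) (f : Eu n → Eu n) (hD : IsOpen D) (hf : ContinuousOn f D)
    (hopen : ∀ U : Set (Eu n), IsOpen U → U ⊆ D → IsOpen (f '' U))
    (hdisc : ∀ x ∈ D, ∃ ε > (0 : ℝ), ∀ y ∈ D, dist y x < ε → f y = f x → y = x)
    (B : Set (Eu n))
    (hB : B = {x | x ∈ D ∧ ∀ U : Set (Eu n), IsOpen U → x ∈ U → U ⊆ D → ¬ Set.InjOn f U})
    (hne : B.Nonempty)
    (hconn : ∀ (c : Eu n) (r : ℝ) (U : Set (Eu n)), U ⊆ D → OD f U (Cube c r) →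
      IsPreconnected (Cube c r \ f '' Br f U)) :
    ∃ (x : Eu n) (r : ℝ) (U : Set (Eu n)), 0 < r ∧ OD f U (Cube (f x) r) ∧ x ∈ Br f U ∧ U ⊆ D ∧
      (∀ z ∈ Br f U, ∀ w ∈ U, f w = f z → w = z) := by
  classical
  let P : ℕ → Prop := fun d => ∃ (x : Eu n) (r : ℝ) (U : Set (Eu n)), 0 < r ∧
    OD f U (Cube (f x) r) ∧ x ∈ U ∧ U ⊆ D ∧ x ∈ Br f U ∧
    ∀ y ∈ Cube (f x) r, y ∉ f '' Br f U → (U ∩ f ⁻¹' {y}).ncard = d
  have hmaps : ∀ (U V : Set (Eu n)), OD f U V → ∀ y ∈ U, f y ∈ V := by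
    intro U V h y hy
    rw [← h.img]
    exact ⟨y, hy, rfl⟩
  have hex : ∃ d, P d := by
    obtain ⟨x, hx⟩ := hne
    rw [hB] at hx
    obtain ⟨hxD, hx2⟩ := hx
    obtain ⟨r0, hr0, h1⟩ := N1 D f hD hf hopen hdisc x D hD hxD subset_rfl
    obtain ⟨U, hOD, _, hxU, hUD, _⟩ := h1 r0 hr0 le_rfl
    obtain ⟨d, hd⟩ := CC hOD (hmaps U _ hOD) (hconn (f x) r0 U hUD hOD)
    refine ⟨d, x, r0, U, hr0, hOD, hxU, hUD, ⟨hxU, ?_⟩, hd⟩
    intro O hO hxO hOU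
    exact hx2 O hO hxO (hOU.trans hUD)
  obtain ⟨x, r, U, hr, hOD, hxU, hUD, hxB, hd⟩ := Nat.find_spec hex
  refine ⟨x, r, U, hr, hOD, hxB, hUD, ?_⟩
  intro z hz w hw hfw
  by_contra hne'
  obtain ⟨u, v, hu, hv, hzu, hwv, huv⟩ := t2_separation (Ne.symm hne')
  have hzU : z ∈ U := hz.1
  have hW1 : IsOpen (u ∩ U) := hu.inter hOD.oU
  have hW2 : IsOpen (v ∩ U) := hv.inter hOD.oU
  obtain ⟨r0, hr0, h1⟩ := N1 D f hD hf hopen hdisc z (u ∩ U) hW1 ⟨hzu, hzU⟩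
    (Set.inter_subset_right.trans hUD)
  have hQ : IsOpen (f '' (v ∩ U) ∩ Cube (f x) r) :=
    (hopen _ hW2 (Set.inter_subset_right.trans hUD)).inter hOD.oV
  have hzQ : f z ∈ f '' (v ∩ U) ∩ Cube (f x) r :=
    ⟨⟨w, ⟨hwv, hw⟩, hfw⟩, hmaps U _ hOD z hzU⟩
  obtain ⟨s, hs, hsQ⟩ := MI_cube hQ hzQ
  have hρ : 0 < min r0 s := lt_min hr0 hs
  obtain ⟨U', hOD', _, hzU', hU'W, _⟩ := h1 (min r0 s) hρ (min_le_left _ _)
  have hU'U : U' ⊆ U := hU'W.trans Set.inter_subset_right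
  have hcQ : Cube (f z) (min r0 s) ⊆ f '' (v ∩ U) ∩ Cube (f x) r := by
    intro y hy
    apply hsQ
    intro i
    exact lt_of_lt_of_le (hy i) (min_le_right _ _)
  have hzB' : z ∈ Br f U' := ⟨hzU', fun O hO hzO hOU => hz.2 O hO hzO (hOU.trans hU'U)⟩
  have hBsub : Br f U' ⊆ Br f U := by
    intro p hp
    refine ⟨hU'U hp.1, fun O hO hpO _ hinj => ?_⟩
    exact hp.2 (O ∩ U') (hO.inter hOD'.oU) ⟨hpO, hp.1⟩ Set.inter_subset_right
      (hinj.mono Set.inter_subset_left)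
  obtain ⟨d', hd'⟩ := CC hOD' (hmaps U' _ hOD') (hconn (f z) (min r0 s) U' (hU'U.trans hUD) hOD')
  have hmin : Nat.find hex ≤ d' :=
    Nat.find_min' hex ⟨z, min r0 s, U', hρ, hOD', hzU', hU'U.trans hUD, hzB', hd'⟩
  obtain ⟨y, hy, hyB⟩ := N3_dense hOD (Cube (f z) (min r0 s)) hOD'.oV
    ⟨f z, hmaps U' _ hOD' z hzU'⟩ (fun y hy => (hcQ hy).2)
  have hyB' : y ∉ f '' Br f U' := fun h => hyB (Set.image_mono hBsub h)
  have h2 := hd y (hcQ hy).2 hyB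
  have h3 := hd' y hy hyB'
  obtain ⟨w', ⟨hw'v, hw'U⟩, hfw'⟩ := (hcQ hy).1
  have h4 : w' ∉ U' ∩ f ⁻¹' {y} := by
    rintro ⟨h5, _⟩
    exact Set.disjoint_left.1 huv (hU'W h5).1 hw'v
  have h5 : insert w' (U' ∩ f ⁻¹' {y}) ⊆ U ∩ f ⁻¹' {y} := by
    rintro p (rfl | hp)
    · exact ⟨hw'U, hfw'⟩
    · exact ⟨hU'U hp.1, hp.2⟩
  have h6 := Set.ncard_le_ncard h5 (hOD.fin y (hcQ hy).2)
  rw [Set.ncard_insert_of_notMem h4 (hOD'.fin y hy), h2, h3] at h6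
  omega

end LibTN40
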