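import Mathlib

set_option autoImplicit false

/-! TN40 row UC (MEDIUM, ONLY Mathlib).  Unicoherence of a convex open set: the intersection of two open preconnected
sets with union `Q` is preconnected.

PLAN.  Suppose `Y ∩ Z` is not preconnected: there are open sets `u, v` with `Y ∩ Z ⊆ u ∪ v`, both meeting `Y ∩ Z`,
`(Y ∩ Z) ∩ (u ∩ v) = ∅`; put `P = Y ∩ Z ∩ u`, `P' = Y ∩ Z ∩ v`, disjoint nonempty open sets with union `Y ∩ Z`.
In the normal (metric) space `↥Q` the sets `Q \ Z = Y \ Z` and `Q \ Y = Z \ Y` are closed and disjoint; Urysohn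
(`exists_continuous_zero_one_of_isClosed`, or `infDist` quotients) gives `φ : C(↥Q, ℝ)`, `φ = 0` on `Q \ Z`, `φ = 1` on `Q \ Y`,
`0 ≤ φ ≤ 1`.  (If `Q \ Z = ∅` or `Q \ Y = ∅` then `Z = Q` or `Y = Q` and the claim is trivial; the argument works anyway.)
Define on `↥Q` : `v1 q = φ q` if `q ∈ P'`, `0` otherwise on `Y`; `v2 q = φ q - 1` if `q ∈ P'`, `0` otherwise on `Z`; `v1` is continuous
on `Y` (near a point of `P` it is `0`; near a point of `P'` it is `φ`; near a point of `Y \ Z`, where `φ = 0`, it is squeezed between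
`0` and `φ`), `v2` is continuous on `Z` in the same way.  `g q = exp (2 π i v1 q)` on `Y`, `exp (2 π i v2 q)` on `Z` is well
defined and continuous on `Q`, with values in the circle (`Circle.exp`), or work with `AddCircle (1 : ℝ)` and
`g q = (v1 q : AddCircle 1)` on `Y`, `(v2 q : AddCircle 1)` on `Z`.
`g` lifts to a continuous `ψ : ↥Q → ℝ` with `g = exp (2 π i ψ)` : `↥Q` is contractible (convex: `Convex.contractibleSpace`), so
simply connected, and locally path connected (`IsOpen.locPathConnectedSpace`); use `IsCoveringMap.existsUnique_continuousMap_lifts`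
(Mathlib/Topology/Homotopy/Lifting.lean) with the covering `ℝ → AddCircle 1` (`AddCircle.isCoveringMap_coe` or similar; search
`isCoveringMap` in Mathlib) .  Then `ψ - v1` is continuous on `Y` with integer values, so constant `= m` on the
preconnected `Y`, and `ψ - v2` is constant `= m'` on `Z`.  On `P` `v1 = v2 = 0`, so `m = m'`; on `P'` `v1 = φ`, `v2 = φ - 1`,
so `m' = m + 1`.  Contradiction. -/

namespace LibTN40

open Set Filter Topology

private theorem UC_aux {X : Type} [MetricSpace X] [SimplyConnectedSpace X] [LocallyPathConnectedSpace X]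
    (Y Z : Set X) (hY : IsOpen Y) (hZ : IsOpen Z) (hU : Y ∪ Z = univ) (hYc : IsPreconnected Y)
    (hZc : IsPreconnected Z) : IsPreconnected (Y ∩ Z) := by
  classical
  rw [isPreconnected_iff_subset_of_disjoint]
  intro u v hu hv huv hd
  by_contra hcon
  push Not at hcon
  obtain ⟨h1, h2⟩ := hcon
  obtain ⟨a, has, hau⟩ := not_subset.mp h1
  obtain ⟨b, hbs, hbv⟩ := not_subset.mp h2
  have hav : a ∈ v := (huv has).resolve_left hau
  have hbu : b ∈ u := (huv hbs).resolve_right hbv
  obtain ⟨φ, hφ0, hφ1, -⟩ := exists_continuous_zero_one_of_isClosed (s := Zᶜ) (t := Yᶜ)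
    hZ.isClosed_compl hY.isClosed_compl (by
      rw [disjoint_left]
      intro x hx hy
      have : x ∈ Y ∪ Z := by rw [hU]; trivial
      exact this.elim hy hx)
  set P : Set X := (Y ∩ Z) ∩ u with hP
  set P' : Set X := (Y ∩ Z) ∩ v with hP'
  have hPo : IsOpen P := (hY.inter hZ).inter hu
  have hP'o : IsOpen P' := (hY.inter hZ).inter hv
  have hPP' : ∀ x ∈ P, x ∉ P' := by
    intro x hx hx'
    have : x ∈ Y ∩ Z ∩ (u ∩ v) := ⟨hx.1, hx.2, hx'.2⟩
    rw [hd] at this
    exact this
  have hsP : ∀ x, x ∈ Y → x ∈ Z → x ∈ P ∨ x ∈ P' := by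
    intro x hx hz
    rcases huv ⟨hx, hz⟩ with h | h
    · exact Or.inl ⟨⟨hx, hz⟩, h⟩
    · exact Or.inr ⟨⟨hx, hz⟩, h⟩
  -- general continuity
  have key : ∀ {M : Type} [TopologicalSpace M] [Zero M] (f : X → M) (x : X), ContinuousAt f x →
      ((x ∈ Y ∧ x ∈ Z) ∨ f x = 0) → ContinuousAt (fun y => if y ∈ P' then f y else 0) x := by
    intro M _ _ f x hf hx
    by_cases hxs : x ∈ Y ∧ x ∈ Z
    · rcases hsP x hxs.1 hxs.2 with h | h
      · have : (fun y => if y ∈ P' then f y else 0) =ᶠ[𝓝 x] fun _ => (0 : M) := by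
          filter_upwards [hPo.mem_nhds h] with y hy
          rw [if_neg (hPP' y hy)]
        exact (continuousAt_const).congr this.symm
      · have : (fun y => if y ∈ P' then f y else 0) =ᶠ[𝓝 x] f := by
          filter_upwards [hP'o.mem_nhds h] with y hy
          rw [if_pos hy]
        exact hf.congr this.symm
    · have hfx : f x = 0 := hx.resolve_left hxs
      have hxP' : x ∉ P' := fun h => hxs h.1
      unfold ContinuousAt
      simp only [if_neg hxP']
      refine Tendsto.if' ?_ tendsto_const_nhds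
      rw [← hfx]
      exact hf
  set g : X → AddCircle (1 : ℝ) := fun y => if y ∈ P' then ((φ y : ℝ) : AddCircle (1 : ℝ)) else 0
    with hg
  have hcoe : ∀ x, ContinuousAt (fun y => ((φ y : ℝ) : AddCircle (1 : ℝ))) x := fun x =>
    ((AddCircle.continuous_mk' 1).comp φ.continuous).continuousAt
  have hgc : Continuous g := by
    rw [continuous_iff_continuousAt]
    intro x
    refine key _ x (hcoe x) ?_
    by_cases hxY : x ∈ Y
    · by_cases hxZ : x ∈ Z
      · exact Or.inl ⟨hxY, hxZ⟩
      · right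
        rw [hφ0 hxZ]
        exact AddCircle.coe_zero _
    · right
      rw [hφ1 hxY]
      exact AddCircle.coe_period 1
  obtain ⟨ψ, ⟨-, hψ⟩, -⟩ := (AddCircle.isCoveringMap_coe (1 : ℝ)).existsUnique_continuousMap_lifts
    ⟨g, hgc⟩ b (0 : ℝ) (by
      change ((0 : ℝ) : AddCircle (1 : ℝ)) = if b ∈ P' then _ else 0
      rw [if_neg (fun h => hbv h.2), AddCircle.coe_zero])
  have hψ' : ∀ x, ((ψ x : ℝ) : AddCircle (1 : ℝ)) = if x ∈ P' then ((φ x : ℝ) : AddCircle (1 : ℝ)) else 0 :=
    fun x => congrFun hψ x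
  have const : ∀ (S : Set X) (w : X → ℝ), IsPreconnected S → ContinuousOn w S →
      (∀ x ∈ S, ((w x : ℝ) : AddCircle (1 : ℝ)) = if x ∈ P' then ((φ x : ℝ) : AddCircle (1 : ℝ)) else 0) →
      a ∈ S → b ∈ S → ψ a - w a = ψ b - w b := by
    intro S w hS hw hwg ha hb
    have hT : MapsTo (fun x => ψ x - w x) S (AddSubgroup.zmultiples (1 : ℝ) : Set ℝ) := by
      intro x hx
      have h3 : (((ψ x - w x : ℝ)) : AddCircle (1 : ℝ)) = 0 := by
        rw [AddCircle.coe_sub, hψ' x, hwg x hx, sub_self]
      exact (QuotientAddGroup.eq_zero_iff _).mp h3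
    haveI : DiscreteTopology (AddSubgroup.zmultiples (1 : ℝ) : Set ℝ) :=
      (inferInstance : DiscreteTopology (AddSubgroup.zmultiples (1 : ℝ)))
    exact hS.constant_of_mapsTo (DiscreteTopology.isDiscrete) (ψ.continuous.continuousOn.sub hw) hT ha hb
  have e1 := const Y (fun y => if y ∈ P' then φ y else 0) hYc (by
      intro x hx
      refine (key _ x φ.continuous.continuousAt ?_).continuousWithinAt
      by_cases hxZ : x ∈ Z
      · exact Or.inl ⟨hx, hxZ⟩
      · exact Or.inr (hφ0 hxZ)) (by
      intro x hx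
      by_cases h : x ∈ P'
      · simp only [if_pos h]
      · simp only [if_neg h]
        exact AddCircle.coe_zero _) has.1 hbs.1
  have e2 := const Z (fun y => if y ∈ P' then φ y - 1 else 0) hZc (by
      intro x hx
      refine (key _ x (φ.continuous.sub continuous_const).continuousAt ?_).continuousWithinAt
      by_cases hxY : x ∈ Y
      · exact Or.inl ⟨hxY, hx⟩
      · refine Or.inr ?_
        change φ x - 1 = 0
        rw [hφ1 hxY]
        exact sub_self _) (by
      intro x hx
      by_cases h : x ∈ P'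
      · simp only [if_pos h]
        rw [AddCircle.coe_sub, AddCircle.coe_period, sub_zero]
      · simp only [if_neg h]
        exact AddCircle.coe_zero _) has.2 hbs.2
  have haP' : a ∈ P' := ⟨has, hav⟩
  have hbP' : b ∉ P' := fun h => hbv h.2
  simp only [if_pos haP', if_neg hbP'] at e1 e2
  linarith

theorem UC {E : Type} [NormedAddCommGroup E] [NormedSpace ℝ E] (Q Y Z : Set E) (hQ : Convex ℝ Q)
    (hQo : IsOpen Q) (hY : IsOpen Y) (hZ : IsOpen Z) (hU : Y ∪ Z = Q) (hYc : IsPreconnected Y)
    (hZc : IsPreconnected Z) : IsPreconnected (Y ∩ Z) := by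
  rcases Q.eq_empty_or_nonempty with h0 | hne
  · have : Y ∩ Z = ∅ := by
      rw [← subset_empty_iff, ← h0, ← hU]
      exact fun x hx => Or.inl hx.1
    rw [this]
    exact isPreconnected_empty
  haveI : ContractibleSpace Q := hQ.contractibleSpace hne
  haveI : LocallyPathConnectedSpace Q := hQo.locallyPathConnectedSpace
  have hYQ : Y ⊆ Q := by rw [← hU]; exact subset_union_left
  have hZQ : Z ⊆ Q := by rw [← hU]; exact subset_union_right
  have himg : ∀ S : Set E, S ⊆ Q → (Subtype.val : Q → E) '' (Subtype.val ⁻¹' S) = S := by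
    intro S hS
    rw [Subtype.image_preimage_coe, inter_eq_right]
    exact hS
  have hpre : ∀ S : Set E, S ⊆ Q → (IsPreconnected ((Subtype.val : Q → E) ⁻¹' S) ↔ IsPreconnected S) := by
    intro S hS
    rw [← Topology.IsInducing.subtypeVal.isPreconnected_image, himg S hS]
  rw [← hpre _ (inter_subset_left.trans hYQ), preimage_inter]
  refine UC_aux _ _ (hY.preimage continuous_subtype_val) (hZ.preimage continuous_subtype_val) ?_
    ((hpre Y hYQ).mpr hYc) ((hpre Z hZQ).mpr hZc)
  rw [← preimage_union, hU]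
  exact Subtype.coe_preimage_self Q

end LibTN40
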