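import Pool.Agent.LibTN40.Defs
import Pool.Agent.LibBR40.N2

set_option autoImplicit false

/-! TN40 row YC (SHORT/MEDIUM).  Two facts.

`WC` : if `W` is open, `L ⊆ W` compact and `W \ L` connected, then `W` is connected.  PLAN.  Suppose `W ⊆ u ∪ v` with `u, v`
open, both meeting `W`, `W ∩ (u ∩ v) = ∅`.  `W \ L` is in `u` or in `v`, say in `u`.  Then `O2 = W ∩ v ⊆ L` is open; its closure
is contained in `L ⊆ W` (`L` closed), and does not meet the open set `W ∩ u`, so `closure O2 ⊆ O2`; `O2` is clopen, so empty or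
`univ` (`IsClopen.eq_univ` in the preconnected `Eu n`), not empty, and not `univ` since it is disjoint from the nonempty
`W \ L`.

`YC` : PLAN.  Let `Y = U ∩ f ⁻¹' W`, open (`h.cont.isOpen_inter_preimage`), it contains `a`.  If `Y ⊆ u ∪ v` with `u, v` open, both
meeting `Y`, `Y ∩ (u ∩ v) = ∅`, then `G = Y ∩ u` is open, relatively closed in `Y`; as in `LibBR40.N2_image_connected` (which
is this statement for `W = V`; either apply it to the restriction `OD f (U ∩ f ⁻¹' W) W`, easy to check: `prp` for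
`K ⊆ W` is `U ∩ f ⁻¹' K`, `fin` and `opn` inherited, `img` from `h.img` and `W ⊆ V`) `f '' G = W`, and the same for `Y ∩ v`.  So both
contain a point over `f a`, which must be `a` by `ha`; contradiction. -/

namespace LibTN40

open LibBR40

private theorem yc_aux {n : ℕ} (W L u v : Set (Eu n)) (hW : IsOpen W) (hL : IsCompact L)
    (hLW : L ⊆ W) (hne : (W \ L).Nonempty) (hu : IsOpen u) (hv : IsOpen v) (hs : W ⊆ u ∪ v)
    (hd : ¬ (W ∩ (u ∩ v)).Nonempty) (hWLu : W \ L ⊆ u) (hv' : (W ∩ v).Nonempty) : False := by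
  have hOL : W ∩ v ⊆ L := by
    rintro x ⟨hxW, hxv⟩
    by_contra hxL
    exact hd ⟨x, hxW, hWLu ⟨hxW, hxL⟩, hxv⟩
  have hcl : IsClosed (W ∩ v) := by
    refine isClosed_of_closure_subset ?_
    intro x hx
    have hxL : x ∈ L := closure_minimal hOL hL.isClosed hx
    have hxW : x ∈ W := hLW hxL
    rcases hs hxW with hxu | hxv
    · exfalso
      rw [mem_closure_iff] at hx
      obtain ⟨y, ⟨hy1, hy2⟩, hy3, hy4⟩ := hx (W ∩ u) (hW.inter hu) ⟨hxW, hxu⟩
      exact hd ⟨y, hy1, hy2, hy4⟩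
    · exact ⟨hxW, hxv⟩
  have huniv : W ∩ v = Set.univ := IsClopen.eq_univ ⟨hcl, hW.inter hv⟩ hv'
  obtain ⟨y, hyW, hyL⟩ := hne
  have : y ∈ W ∩ v := by rw [huniv]; trivial
  exact hyL (hOL this)

private theorem yc_res {n : ℕ} {f : Eu n → Eu n} {U V : Set (Eu n)} (h : OD f U V)
    (W : Set (Eu n)) (hW : IsOpen W) (hWV : W ⊆ V) : OD f (U ∩ f ⁻¹' W) W := by
  have hU2o : IsOpen (U ∩ f ⁻¹' W) := h.cont.isOpen_inter_preimage h.oU hW
  have hK : ∀ K : Set (Eu n), K ⊆ W → (U ∩ f ⁻¹' W) ∩ f ⁻¹' K = U ∩ f ⁻¹' K := by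
    intro K hK
    ext y
    constructor
    · rintro ⟨⟨h1, _⟩, h3⟩; exact ⟨h1, h3⟩
    · rintro ⟨h1, h3⟩; exact ⟨⟨h1, hK h3⟩, h3⟩
  refine ⟨hU2o, hW, h.cont.mono Set.inter_subset_left,
    fun O hO hOU => h.opn O hO (hOU.trans Set.inter_subset_left), ?_, ?_, ?_⟩
  · ext y
    constructor
    · rintro ⟨z, hz, rfl⟩; exact hz.2
    · intro hy
      have : y ∈ f '' U := by rw [h.img]; exact hWV hy
      obtain ⟨z, hz, rfl⟩ := this
      exact ⟨z, ⟨hz, hy⟩, rfl⟩
  · intro K hKs hKc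
    rw [hK K hKs]
    exact h.prp K (hKs.trans hWV) hKc
  · intro y hy
    rw [hK {y} (by simpa using hy)]
    exact h.fin y (hWV hy)

theorem WC {n : ℕ} (W L : Set (Eu n)) (hW : IsOpen W) (hL : IsCompact L) (hLW : L ⊆ W)
    (hc : IsConnected (W \ L)) : IsConnected W := by
  refine ⟨hc.nonempty.mono Set.sdiff_subset, ?_⟩
  intro u v hu hv hs hsu hsv
  by_contra hd
  have hd' : (W \ L) ∩ (u ∩ v) = ∅ := by
    rw [Set.eq_empty_iff_forall_notMem]
    rintro x ⟨hx1, hx2⟩
    exact hd ⟨x, hx1.1, hx2⟩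
  rcases isPreconnected_iff_subset_of_disjoint.1 hc.isPreconnected u v hu hv
    (Set.sdiff_subset.trans hs) hd' with h | h
  · exact yc_aux W L u v hW hL hLW hc.nonempty hu hv hs hd h hsv
  · exact yc_aux W L v u hW hL hLW hc.nonempty hv hu (by rwa [Set.union_comm])
      (by rwa [Set.inter_comm v u]) h hsu

theorem YC {n : ℕ} {f : Eu n → Eu n} {U V : Set (Eu n)} (h : OD f U V) (W : Set (Eu n))
    (hW : IsOpen W) (hWV : W ⊆ V) (hWc : IsPreconnected W) (a : Eu n) (haU : a ∈ U) (haW : f a ∈ W)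
    (ha : ∀ w ∈ U, f w = f a → w = a) : IsConnected (U ∩ f ⁻¹' W) := by
  have hOD := yc_res h W hW hWV
  have hx2 : a ∈ U ∩ f ⁻¹' W := ⟨haU, haW⟩
  have hall : ∀ y ∈ U ∩ f ⁻¹' W, a ∈ connectedComponentIn (U ∩ f ⁻¹' W) y := by
    intro y hy
    have hGo : IsOpen (connectedComponentIn (U ∩ f ⁻¹' W) y) := hOD.oU.connectedComponentIn
    have hGU := connectedComponentIn_subset (U ∩ f ⁻¹' W) y
    have hne : (connectedComponentIn (U ∩ f ⁻¹' W) y).Nonempty :=
      ⟨y, mem_connectedComponentIn hy⟩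
    have himg := N2_image_connected hOD hWc hGo hGU hne (by
      rintro z ⟨hz1, hz2⟩
      have hpc : IsPreconnected (connectedComponentIn (U ∩ f ⁻¹' W) y) :=
        isPreconnected_connectedComponentIn
      have hpc2 : IsPreconnected (insert z (connectedComponentIn (U ∩ f ⁻¹' W) y)) :=
        hpc.subset_closure (Set.subset_insert _ _)
          (Set.insert_subset hz2 subset_closure)
      have : insert z (connectedComponentIn (U ∩ f ⁻¹' W) y) ⊆
          connectedComponentIn (U ∩ f ⁻¹' W) y :=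
        hpc2.subset_connectedComponentIn
          (Set.mem_insert_of_mem _ (mem_connectedComponentIn hy))
          (Set.insert_subset hz1 hGU)
      exact this (Set.mem_insert _ _))
    have hfx : f a ∈ f '' connectedComponentIn (U ∩ f ⁻¹' W) y := by
      rw [himg]; exact haW
    obtain ⟨z, hz, hzx⟩ := hfx
    have := ha z (hGU hz).1 hzx
    exact this ▸ hz
  have heq : U ∩ f ⁻¹' W = connectedComponentIn (U ∩ f ⁻¹' W) a := by
    refine Set.Subset.antisymm ?_ (connectedComponentIn_subset _ _)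
    intro y hy
    rw [← connectedComponentIn_eq (hall y hy)]
    exact mem_connectedComponentIn hy
  rw [heq]
  exact ⟨⟨a, mem_connectedComponentIn hx2⟩, isPreconnected_connectedComponentIn⟩

/-- the restriction of an `OD` map over an open subset -/
theorem OD_res {n : ℕ} {f : Eu n → Eu n} {U V : Set (Eu n)} (h : OD f U V) (W : Set (Eu n))
    (hW : IsOpen W) (hWV : W ⊆ V) : OD f (U ∩ f ⁻¹' W) W := by
  exact yc_res h W hW hWV

end LibTN40
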