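import Pool.Agent.LibTN40.NH
import Pool.Agent.LibTN40.YC
import Pool.Agent.LibTN40.UC

set_option autoImplicit false

/-! TN40 row TC.  The preimage of `W \ L` is path connected (assembly of NH, YC, UC; proved by helper40). -/

namespace LibTN40

open LibBR40

theorem TC {n : ℕ} (hn : 2 ≤ n) {f : Eu n → Eu n} {U V : Set (Eu n)} (h : OD f U V) (c : Eu n)
    {s : ℝ} (hs : 0 < s) (hQ : Cube c s ⊆ U) (L W : Set (Eu n)) (hL : IsCompact L) (hW : IsOpen W)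
    (hLW : L ⊆ W) (hWV : W ⊆ V) (hLc : IsConnected Lᶜ) (hWL : IsConnected (W \ L))
    (hY : U ∩ f ⁻¹' W ⊆ Cube c s) (a : Eu n) (haU : a ∈ U) (haL : f a ∈ L)
    (ha : ∀ w ∈ U, f w = f a → w = a) : IsPathConnected (U ∩ f ⁻¹' (W \ L)) := by
  have hWc : IsConnected W := WC W L hW hL hLW hWL
  have hYc : IsConnected (U ∩ f ⁻¹' W) := YC h W hW hWV hWc.isPreconnected a haU (hLW haL) ha
  have hZc : IsConnected (Cube c s \ f ⁻¹' L) :=
    NH hn h c hs hQ L hL (hLW.trans hWV) hLc fun y hy => hY ⟨hy.1, hLW hy.2⟩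
  have hYo : IsOpen (U ∩ f ⁻¹' W) := h.cont.isOpen_inter_preimage h.oU hW
  have hLo : IsOpen (U ∩ f ⁻¹' Lᶜ) := h.cont.isOpen_inter_preimage h.oU hL.isClosed.isOpen_compl
  have hZe : Cube c s \ f ⁻¹' L = Cube c s ∩ (U ∩ f ⁻¹' Lᶜ) := by
    ext y
    constructor
    · rintro ⟨h1, h2⟩; exact ⟨h1, hQ h1, h2⟩
    · rintro ⟨h1, _, h2⟩; exact ⟨h1, h2⟩
  have hZo : IsOpen (Cube c s \ f ⁻¹' L) := by
    rw [hZe]; exact (N2_isOpen_Cube c s).inter hLo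
  have hun : (U ∩ f ⁻¹' W) ∪ (Cube c s \ f ⁻¹' L) = Cube c s := by
    ext y
    constructor
    · rintro (h1 | h1)
      · exact hY h1
      · exact h1.1
    · intro hy
      by_cases hyL : f y ∈ L
      · exact Or.inl ⟨hQ hy, hLW hyL⟩
      · exact Or.inr ⟨hy, hyL⟩
  have hint : (U ∩ f ⁻¹' W) ∩ (Cube c s \ f ⁻¹' L) = U ∩ f ⁻¹' (W \ L) := by
    ext y
    constructor
    · rintro ⟨⟨h1, h2⟩, _, h3⟩; exact ⟨h1, h2, h3⟩
    · rintro ⟨h1, h2, h3⟩; exact ⟨⟨h1, h2⟩, hY ⟨h1, h2⟩, h3⟩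
  have hpre : IsPreconnected (U ∩ f ⁻¹' (W \ L)) := by
    rw [← hint]
    exact UC (Cube c s) _ _ (N2_convex_Cube c s) (N2_isOpen_Cube c s) hYo hZo hun
      hYc.isPreconnected hZc.isPreconnected
  have hne : (U ∩ f ⁻¹' (W \ L)).Nonempty := by
    obtain ⟨y, hy⟩ := hWL.nonempty
    have : y ∈ f '' U := by rw [h.img]; exact hWV hy.1
    obtain ⟨z, hz, rfl⟩ := this
    exact ⟨z, hz, hy⟩
  have hTo : IsOpen (U ∩ f ⁻¹' (W \ L)) :=
    h.cont.isOpen_inter_preimage h.oU (hW.sdiff hL.isClosed)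
  exact (hTo.isConnected_iff_isPathConnected).1 ⟨hne, hpre⟩

end LibTN40
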