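import Pool.Agent.LibBR40.Main
import Pool.Agent.LibTN40.TC
import Pool.Agent.LibTN40.CC
import Pool.Agent.LibTN40.MI
import Pool.Agent.LibTN40.FI
import Pool.Agent.LibTN40.AL
import Pool.Agent.LibTN40.GE
import Pool.Agent.LibTN40.DM
import Pool.Agent.LibTN40.GV

set_option autoImplicit false

open scoped Topology

/-! TN40: the assembly (helper40). -/

namespace LibTN40

open LibBR40

variable {n : ℕ}

theorem coord_le_dist (y z : Eu n) (i : Fin n) : |y i - z i| ≤ dist y z := by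
  have h := PiLp.norm_apply_le (y - z) i
  rw [dist_eq_norm]
  exact h

/-- the restriction of `resMap` over `W \ L` is a covering map -/
theorem cov_part {f : Eu n → Eu n} {U V : Set (Eu n)} (h : OD f U V) (hm : ∀ y ∈ U, f y ∈ V)
    (S : Set (Eu n)) (hS : IsOpen S) (hSV : S ⊆ V) (hSA : ∀ y ∈ S, y ∉ f '' Br f U) :
    IsCoveringMap (fun y : ↥(U ∩ f ⁻¹' S) => (⟨f y, y.2.2⟩ : ↥S)) := by
  have hODS : OD f (U ∩ f ⁻¹' S) S := OD_res h S hS hSV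
  have hm2 : ∀ y ∈ U ∩ f ⁻¹' S, f y ∈ S := fun y hy => hy.2
  have hcov := N3_cov hODS hm2
  have hBr : f '' Br f (U ∩ f ⁻¹' S) = ∅ := by
    rw [Set.image_eq_empty, Set.eq_empty_iff_forall_notMem]
    rintro y ⟨hy1, hy2⟩
    refine hSA (f y) hy1.2 ⟨y, ⟨hy1.1, fun O hO hyO hOU hi => ?_⟩, rfl⟩
    exact hy2 (O ∩ (U ∩ f ⁻¹' S)) (hO.inter hODS.oU) ⟨hyO, hy1⟩ Set.inter_subset_right
      (hi.mono Set.inter_subset_left)
  have hfe : f ⁻¹' (∅ : Set (Eu n)) = ∅ := Set.preimage_empty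
  let e1 : ↥(U ∩ f ⁻¹' S) ≃ₜ ↥((U ∩ f ⁻¹' S) \ f ⁻¹' (f '' Br f (U ∩ f ⁻¹' S))) :=
    Homeomorph.setCongr (by rw [hBr, hfe, Set.diff_empty])
  let e2 : ↥(S \ f '' Br f (U ∩ f ⁻¹' S)) ≃ₜ ↥S :=
    Homeomorph.setCongr (by rw [hBr, Set.diff_empty])
  have h3 : (fun y : ↥(U ∩ f ⁻¹' S) => (⟨f y, y.2.2⟩ : ↥S)) =
      e2 ∘ resMap f (U ∩ f ⁻¹' S) S (f '' Br f (U ∩ f ⁻¹' S)) hm2 ∘ e1 := by
    funext y
    apply Subtype.ext
    rfl
  rw [h3]
  exact (hcov.comp_homeomorph e1).homeomorph_comp e2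

/-- The main theorem: no branching over a set with fine necklaces. -/
theorem main (hn : 3 ≤ n) (A : Set (Eu n)) (hA : Neck A) (D : Set (Eu n)) (f : Eu n → Eu n)
    (hD : IsOpen D) (hf : ContinuousOn f D)
    (hopen : ∀ U : Set (Eu n), IsOpen U → U ⊆ D → IsOpen (f '' U))
    (hdisc : ∀ x ∈ D, ∃ ε > (0 : ℝ), ∀ y ∈ D, dist y x < ε → f y = f x → y = x)
    (B : Set (Eu n))
    (hB : B = {x | x ∈ D ∧ ∀ U : Set (Eu n), IsOpen U → x ∈ U → U ⊆ D → ¬ Set.InjOn f U})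
    (hBA : f '' B ⊆ A) : B = ∅ := by
  by_contra hne
  have hne' : B.Nonempty := Set.nonempty_iff_ne_empty.2 hne
  have hkn : (n - 3) + 3 ≤ n := by omega
  have hBrB : ∀ U : Set (Eu n), IsOpen U → U ⊆ D → Br f U ⊆ B := by
    intro U hU hUD y hy
    rw [hB]
    refine ⟨hUD hy.1, fun O hO hyO hOD hi => ?_⟩
    exact hy.2 (O ∩ U) (hO.inter hU) ⟨hyO, hy.1⟩ Set.inter_subset_right
      (hi.mono Set.inter_subset_left)
  have hBrA : ∀ U : Set (Eu n), IsOpen U → U ⊆ D → f '' Br f U ⊆ A := fun U hU hUD =>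
    (Set.image_mono (hBrB U hU hUD)).trans hBA
  have hpre : ∀ (c : Eu n) (r : ℝ) (U : Set (Eu n)), U ⊆ D → OD f U (Cube c r) →
      IsPreconnected (Cube c r \ f '' Br f U) := by
    intro c r U hUD hOD
    exact KL0 hkn c r _ (N3_open hOD).1 fun C hC hCc =>
      DM A hA C (fun z hz => hBrA U hOD.oU hUD (hC hz).1) hCc
  obtain ⟨x, r, U1, hr, hOD1, hxBr, hU1D, htot⟩ := MI D f hD hf hopen hdisc B hB hne' hpre
  set V1 := Cube (f x) r with hV1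
  have hm : ∀ y ∈ U1, f y ∈ V1 := fun y hy => by
    rw [← hOD1.img]; exact ⟨y, hy, rfl⟩
  set A' := f '' Br f U1 with hA'
  have hA'A : A' ⊆ A := hBrA U1 hOD1.oU hU1D
  obtain ⟨hVA, hUA⟩ := N3_open hOD1
  rw [← hA'] at hVA hUA
  have hcov := N3_cov hOD1 hm
  rw [← hA'] at hcov
  have hdense := N3_dense hOD1
  rw [← hA'] at hdense
  have hx1 : x ∈ U1 := hxBr.1
  have hfxA' : f x ∈ A' := ⟨x, hxBr, rfl⟩
  have hpreV : IsPreconnected (V1 \ A') := hpre (f x) r U1 hU1D hOD1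
  have hneV : (V1 \ A').Nonempty := by
    obtain ⟨y, hy, hyA⟩ := hdense V1 hOD1.oV ⟨f x, hm x hx1⟩ subset_rfl
    exact ⟨y, hy, hyA⟩
  have hpathV : IsPathConnected (V1 \ A') :=
    (hVA.isConnected_iff_isPathConnected).1 ⟨hneV, hpreV⟩
  have : PathConnectedSpace ↥(V1 \ A') := isPathConnected_iff_pathConnectedSpace.1 hpathV
  obtain ⟨G, grp, P, hP⟩ := FI (resMap f U1 V1 A' hm) hcov
  let P' : GSys ↥(U1 \ f ⁻¹' A') G := P.comap ⟨resMap f U1 V1 A' hm, hcov.continuous⟩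
  obtain ⟨s, hs, hsU⟩ := exists_Cube hOD1.oU hx1
  have hinj : ∀ y ∈ U1, f y = f x → y = x := htot x hxBr
  obtain ⟨hN2a, hN2b⟩ := N2 hr hOD1 hx1 hinj
  obtain ⟨r2, hr2, hr2r, hU2Q⟩ := hN2b (Cube x s) (isOpen_Cube x s) (mem_Cube_self x hs)
  have hr22 : 0 < r2 / 2 := by positivity
  have hV21 : Cube (f x) r2 ⊆ V1 := Cube_mono (f x) hr2r
  obtain ⟨s3, hs3, hs3U⟩ := exists_Cube
    (hOD1.cont.isOpen_inter_preimage hOD1.oU (isOpen_Cube (f x) (r2 / 2)))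
    (show x ∈ U1 ∩ f ⁻¹' (Cube (f x) (r2 / 2)) from ⟨hx1, mem_Cube_self (f x) hr22⟩)
  obtain ⟨r4, hr4, hr4r, hU4Q⟩ := hN2b (Cube x s3) (isOpen_Cube x s3) (mem_Cube_self x hs3)
  have hV41 : Cube (f x) r4 ⊆ V1 := Cube_mono (f x) hr4r
  -- one piece of a necklace
  have piece : ∀ (L W : Set (Eu n)) (ε : ℝ), ε ≤ r2 / 2 → IsCompact L → IsOpen W → L ⊆ W →
      (∀ y ∈ W, ∀ z ∈ W, dist y z < ε) → IsConnected Lᶜ → IsPathConnected (W \ L) →
      (∃ a ∈ L, a ∈ A' ∧ a ∈ Cube (f x) (r2 / 2)) →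
      W ⊆ V1 ∧ IsPathConnected (U1 ∩ f ⁻¹' (W \ L)) := by
    intro L W ε hε hL hW hLW hd hLc hWL ⟨a, haL, haA, hac⟩
    have h1 : W ⊆ Cube (f x) r2 := by
      intro w hw i
      have h2 := coord_le_dist w a i
      have h3 := hd w hw a (hLW haL)
      have h4 := hac i
      calc |w i - f x i| ≤ |w i - a i| + |a i - f x i| := abs_sub_le _ _ _
        _ < r2 := by linarith
    obtain ⟨z, hz, hza⟩ := haA
    refine ⟨h1.trans hV21, ?_⟩
    refine TC (by omega) hOD1 x hs hsU L W hL hW hLW (h1.trans hV21) hLc hWL.isConnected ?_ z hz.1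
      (by rw [hza]; exact haL) (htot z hz)
    rintro y ⟨hy1, hy2⟩
    exact hU2Q ⟨hy1, h1 hy2⟩
  -- loops in a piece
  have loops : ∀ (L W : Set (Eu n)), IsCompact L → IsOpen W → W ⊆ V1 →
      (∀ y ∈ W \ L, y ∉ A') → IsPathConnected (U1 ∩ f ⁻¹' (W \ L)) →
      (∀ (t : ↥(W \ L)) (H : Subgroup (FundamentalGroup ↥(W \ L) t)), H.FiniteIndex → H.Normal) →
      ∀ (y : ↥(U1 \ f ⁻¹' A')) (γ : Path y y), (∀ t, (γ t : Eu n) ∈ U1 ∩ f ⁻¹' (W \ L)) →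
        P'.a γ = 1 := by
    intro L W hL hW hWV hWA hpc hNor y γ hγ
    have hS : IsOpen (W \ L) := hW.sdiff hL.isClosed
    have hSV : W \ L ⊆ V1 := fun z hz => hWV hz.1
    have hpcs : PathConnectedSpace ↥(U1 ∩ f ⁻¹' (W \ L)) :=
      isPathConnected_iff_pathConnectedSpace.1 hpc
    have hcp := cov_part hOD1 hm (W \ L) hS hSV hWA
    have h0 : (y : Eu n) ∈ U1 ∩ f ⁻¹' (W \ L) := by
      have := hγ 0
      rwa [γ.source] at this
    have hfy : f y ∈ W \ L := h0.2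
    have hcf : Continuous fun t => f (γ t : Eu n) :=
      hOD1.cont.comp_continuous (continuous_subtype_val.comp γ.continuous) fun t => (hγ t).1
    let γ0 : Path (⟨f y, hfy⟩ : ↥(W \ L)) ⟨f y, hfy⟩ :=
      ⟨⟨fun t => ⟨f (γ t), (hγ t).2⟩, Continuous.subtype_mk hcf _⟩,
        by apply Subtype.ext; simp, by apply Subtype.ext; simp⟩
    change P.a (γ.map _) = 1
    rw [hP]
    intro Γ hΓ
    have hval : ∀ t, f (Γ t : Eu n) = f (γ t : Eu n) := fun t => congrArg Subtype.val (hΓ t)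
    let Γ0 : C(unitInterval, ↥(U1 ∩ f ⁻¹' (W \ L))) :=
      ⟨fun t => ⟨γ t, hγ t⟩, Continuous.subtype_mk (continuous_subtype_val.comp γ.continuous) _⟩
    let Γ0' : C(unitInterval, ↥(U1 ∩ f ⁻¹' (W \ L))) :=
      ⟨fun t => ⟨Γ t, (Γ t).2.1, by change f (Γ t : Eu n) ∈ W \ L; rw [hval t]; exact (hγ t).2⟩,
        Continuous.subtype_mk (continuous_subtype_val.comp Γ.continuous) _⟩
    have hfin : ((fun z : ↥(U1 ∩ f ⁻¹' (W \ L)) => (⟨f z, z.2.2⟩ : ↥(W \ L))) ⁻¹'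
        {(⟨f y, hfy⟩ : ↥(W \ L))}).Finite := by
      refine Set.Finite.of_finite_image (f := Subtype.val) ?_ Subtype.val_injective.injOn
      refine (hOD1.fin (f y) (hSV hfy)).subset ?_
      rintro _ ⟨z, hz, rfl⟩
      exact ⟨z.2.1, congrArg Subtype.val hz⟩
    have hres := AL _ hcp (⟨f y, hfy⟩ : ↥(W \ L)) hfin (hNor _) γ0 Γ0 Γ0' (fun t => rfl)
      (fun t => by apply Subtype.ext; exact hval t)
      (by apply Subtype.ext; change (γ 1 : Eu n) = (γ 0 : Eu n); rw [γ.source, γ.target])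
    have h9 : ((Γ0' 1 : ↥(U1 ∩ f ⁻¹' (W \ L))) : Eu n) = (Γ0' 0 : ↥(U1 ∩ f ⁻¹' (W \ L))) :=
      congrArg Subtype.val hres
    exact Subtype.ext h9
  -- all loops in the small cube act trivially
  have triv : ∀ (y : ↥(U1 \ f ⁻¹' A')) (ζ : Path y y), (∀ t, (ζ t : Eu n) ∈ Cube x s3) →
      P'.a ζ = 1 := by
    intro y ζ hζ
    have hcf : Continuous fun t => f (ζ t : Eu n) :=
      hOD1.cont.comp_continuous (continuous_subtype_val.comp ζ.continuous) fun t => (ζ t).2.1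
    have hK : IsCompact (Set.range fun t => f (ζ t : Eu n)) := isCompact_range hcf
    have hKs : (Set.range fun t => f (ζ t : Eu n)) ⊆ V1 \ A' := by
      rintro _ ⟨t, rfl⟩
      exact ⟨hm _ (ζ t).2.1, (ζ t).2.2⟩
    obtain ⟨ε1, hε1, hth⟩ := hK.exists_thickening_subset_open hVA hKs
    have hε : 0 < min ε1 (r2 / 2) := lt_min hε1 hr22
    obtain ⟨m, L, W, hL, hW, hLW, hdj, hdi, hLc, hWL, hNor, hAL⟩ := hA _ hε
    have hWA : ∀ j, ∀ z ∈ W j \ L j, z ∉ A' := by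
      intro j z hz hzA
      obtain ⟨i, hi⟩ := Set.mem_iUnion.1 (hAL (hA'A hzA))
      by_cases hij : i = j
      · subst hij; exact hz.2 hi
      · exact Set.disjoint_left.1 (hdj i j hij) (hLW i hi) hz.1
    have hpc : ∀ j : {j : Fin m // ∃ a ∈ L j, a ∈ A' ∧ a ∈ Cube (f x) (r2 / 2)},
        W j.1 ⊆ V1 ∧ IsPathConnected (U1 ∩ f ⁻¹' (W j.1 \ L j.1)) := fun j =>
      piece (L j.1) (W j.1) _ (min_le_right _ _) (hL _) (hW _) (hLW _) (hdi _) (hLc _) (hWL _) j.2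
    have hO0 : IsOpen {z : Eu n | z ∈ Cube x s3 ∧
        ∀ j : {j : Fin m // ∃ a ∈ L j, a ∈ A' ∧ a ∈ Cube (f x) (r2 / 2)}, f z ∉ L j.1} := by
      have he : {z : Eu n | z ∈ Cube x s3 ∧
          ∀ j : {j : Fin m // ∃ a ∈ L j, a ∈ A' ∧ a ∈ Cube (f x) (r2 / 2)}, f z ∉ L j.1} =
          Cube x s3 ∩ (U1 ∩ f ⁻¹' (⋂ j : {j : Fin m // ∃ a ∈ L j, a ∈ A' ∧
            a ∈ Cube (f x) (r2 / 2)}, (L j.1)ᶜ)) := by
        ext z
        constructor
        · rintro ⟨h1, h2⟩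
          exact ⟨h1, (hs3U h1).1, Set.mem_iInter.2 fun j => h2 j⟩
        · rintro ⟨h1, _, h2⟩
          exact ⟨h1, fun j => Set.mem_iInter.1 h2 j⟩
      rw [he]
      refine (isOpen_Cube x s3).inter (hOD1.cont.isOpen_inter_preimage hOD1.oU ?_)
      exact isOpen_iInter_of_finite fun j => (hL j.1).isClosed.isOpen_compl
    refine GV (U1 \ f ⁻¹' A') (Cube x s3) _ P' (fun j => U1 ∩ f ⁻¹' (W j.1))
      (fun j => U1 ∩ f ⁻¹' (W j.1 \ L j.1)) (N2_convex_Cube x s3) hO0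
      (fun j => hOD1.cont.isOpen_inter_preimage hOD1.oU (hW j.1)) ?_ ?_ ?_
      (fun j => (hpc j).2) ?_ ?_ ?_ y ζ ?_
    · intro z hz
      by_cases h : ∀ j : {j : Fin m // ∃ a ∈ L j, a ∈ A' ∧ a ∈ Cube (f x) (r2 / 2)}, f z ∉ L j.1
      · exact Or.inl ⟨hz, h⟩
      · push Not at h
        obtain ⟨j, hj⟩ := h
        exact Or.inr ⟨j, (hs3U hz).1, hLW _ hj⟩
    · intro i j hij
      rw [Set.disjoint_left]
      rintro z ⟨_, h1⟩ ⟨_, h2⟩
      exact Set.disjoint_left.1 (hdj i.1 j.1 fun h => hij (Subtype.ext h)) h1 h2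
    · rintro z ⟨hz1, _, hz2⟩
      refine ⟨(hs3U hz1).1, fun hzA => ?_⟩
      obtain ⟨i, hi⟩ := Set.mem_iUnion.1 (hAL (hA'A hzA))
      exact hz2 ⟨i, f z, hi, hzA, (hs3U hz1).2⟩ hi
    · intro j z hz
      exact ⟨hz.1, fun hzA => hWA j.1 (f z) hz.2 hzA⟩
    · intro j z hz hz0 hzj
      exact ⟨hzj.1, hzj.2, hz0.2 j⟩
    · intro j
      exact loops (L j.1) (W j.1) (hL _) (hW _) (hpc j).1 (hWA j.1) (hpc j).2 (hNor j.1)
    · intro t
      refine ⟨hζ t, hζ t, fun j hj => ?_⟩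
      obtain ⟨a, haL, haA, _⟩ := j.2
      have h1 : a ∈ Metric.thickening ε1 (Set.range fun t => f (ζ t : Eu n)) := by
        rw [Metric.mem_thickening_iff]
        exact ⟨f (ζ t), ⟨t, rfl⟩, (hdi j.1 a (hLW _ haL) _ (hLW _ hj)).trans_le (min_le_left _ _)⟩
      exact (hth h1).2 haA
  -- the final necklace
  have hε : 0 < min r4 (r2 / 2) := lt_min hr4 hr22
  obtain ⟨m, L, W, hL, hW, hLW, hdj, hdi, hLc, hWL, hNor, hAL⟩ := hA _ hε
  obtain ⟨j, hj⟩ := Set.mem_iUnion.1 (hAL (hA'A hfxA'))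
  have hWA : ∀ z ∈ W j \ L j, z ∉ A' := by
    intro z hz hzA
    obtain ⟨i, hi⟩ := Set.mem_iUnion.1 (hAL (hA'A hzA))
    by_cases hij : i = j
    · subst hij; exact hz.2 hi
    · exact Set.disjoint_left.1 (hdj i j hij) (hLW i hi) hz.1
  obtain ⟨hWV, hpc⟩ := piece (L j) (W j) _ (min_le_right _ _) (hL _) (hW _) (hLW _) (hdi _)
    (hLc _) (hWL _) ⟨f x, hj, hfxA', mem_Cube_self (f x) hr22⟩
  have hW4 : W j ⊆ Cube (f x) r4 := by
    intro w hw i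
    have h2 := coord_le_dist w (f x) i
    have h3 := hdi j w hw (f x) (hLW j hj)
    exact (h2.trans_lt h3).trans_le (min_le_left _ _)
  obtain ⟨t00, ht00⟩ := (hWL j).nonempty
  let t0 : ↥(W j \ L j) := ⟨t00, ht00⟩
  have hV4o : IsOpen (Cube (f x) r4 \ A') := by
    have : Cube (f x) r4 \ A' = Cube (f x) r4 ∩ (V1 \ A') := by
      ext z
      constructor
      · rintro ⟨h1, h2⟩; exact ⟨h1, hV41 h1, h2⟩
      · rintro ⟨h1, _, h2⟩; exact ⟨h1, h2⟩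
    rw [this]
    exact (isOpen_Cube _ _).inter hVA
  let i : C(↥(Cube (f x) r4 \ A'), ↥(V1 \ A')) :=
    ⟨fun w => ⟨w.1, hV41 w.2.1, w.2.2⟩, by fun_prop⟩
  let k : C(↥(W j \ L j), ↥(Cube (f x) r4 \ A')) :=
    ⟨fun w => ⟨w.1, hW4 w.2.1, hWA w.1 w.2⟩, by fun_prop⟩
  have hpre0 : ∀ e : ↥(U1 \ f ⁻¹' A'), resMap f U1 V1 A' hm e = i (k t0) → f e = t00 := by
    intro e he
    exact congrArg Subtype.val he
  have hfib := GE (resMap f U1 V1 A' hm) hcov i k t0 ?_ ?_ ?_ (hNor j t0) ?_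
  rotate_left
  · refine Set.Finite.of_finite_image (f := Subtype.val) ?_ Subtype.val_injective.injOn
    refine (hOD1.fin t00 (hWV ht00.1)).subset ?_
    rintro _ ⟨e, he, rfl⟩
    exact ⟨e.2.1, hpre0 e he⟩
  · -- transitivity
    intro e e' he he'
    have heU : (e : Eu n) ∈ U1 ∩ f ⁻¹' (W j \ L j) :=
      ⟨e.2.1, by change f e ∈ W j \ L j; rw [hpre0 e he]; exact ht00⟩
    have heU' : (e' : Eu n) ∈ U1 ∩ f ⁻¹' (W j \ L j) :=
      ⟨e'.2.1, by change f e' ∈ W j \ L j; rw [hpre0 e' he']; exact ht00⟩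
    obtain ⟨γ, hγ⟩ := hpc.joinedIn _ heU _ heU'
    refine ⟨⟨⟨fun t => ⟨f (γ t), (hγ t).2⟩, ?_⟩, ?_, ?_⟩,
      ⟨⟨fun t => ⟨γ t, (hγ t).1, fun h => hWA _ (hγ t).2 h⟩, ?_⟩, ?_, ?_⟩, fun t => rfl⟩
    · refine Continuous.subtype_mk ?_ _
      exact hOD1.cont.comp_continuous γ.continuous (fun t => (hγ t).1)
    · apply Subtype.ext
      simp [hpre0 e he, t0]
    · apply Subtype.ext
      simp [hpre0 e' he', t0]
    · exact Continuous.subtype_mk γ.continuous _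
    · apply Subtype.ext
      simp
    · apply Subtype.ext
      simp
  · -- freeness
    intro γ Γ Γ' hΓ hΓ' hcl
    have hval : ∀ t, f (Γ t : Eu n) = (γ t : Eu n) := fun t => congrArg Subtype.val (hΓ t)
    let ζ : Path (Γ 0) (Γ 0) := ⟨Γ, rfl, hcl⟩
    have h1 : P'.a ζ = 1 := by
      refine triv (Γ 0) ζ fun t => ?_
      apply hU4Q
      refine ⟨(Γ t).2.1, ?_⟩
      change f (Γ t : Eu n) ∈ Cube (f x) r4
      rw [hval t]
      exact (γ t).2.1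
    change P.a (ζ.map _) = 1 at h1
    rw [hP] at h1
    refine h1 Γ' fun t => ?_
    rw [hΓ' t, ← hΓ t]
    rfl
  · intro Q _ φ
    exact KLhom hkn (f x) r4 A' hV4o
      (fun C hC hCc => DM A hA C (fun z hz => hA'A (hC hz).1) hCc) (k t0) φ
  -- one sheet
  obtain ⟨d, hd⟩ := CC hOD1 hm (by rw [← hA']; exact hpreV)
  rw [← hA'] at hd
  have ht00A : t00 ∉ A' := hWA t00 ht00
  have hd1 : d ≤ 1 := by
    rw [← hd t00 (hWV ht00.1) ht00A, Set.ncard_le_one (hOD1.fin t00 (hWV ht00.1))]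
    rintro a ⟨ha1, ha2⟩ b ⟨hb1, hb2⟩
    have ha3 : a ∉ f ⁻¹' A' := fun h => ht00A (by
      have : f a = t00 := ha2
      rw [← this]; exact h)
    have hb3 : b ∉ f ⁻¹' A' := fun h => ht00A (by
      have : f b = t00 := hb2
      rw [← this]; exact h)
    have := hfib ⟨a, ha1, ha3⟩ ⟨b, hb1, hb3⟩ (Subtype.ext ha2) (Subtype.ext hb2)
    exact congrArg Subtype.val this
  have hinjU : Set.InjOn f U1 := by
    refine N6 hOD1 (A := A') (fun O hO hne hOV => hdense O hO hne hOV) ?_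
    intro v hv hvA a ha b hb h1 h2
    have h3 := hd v hv hvA
    have h4 : (U1 ∩ f ⁻¹' {v}).ncard ≤ 1 := by rw [h3]; exact hd1
    rw [Set.ncard_le_one (hOD1.fin v hv)] at h4
    exact h4 a ⟨ha, h1⟩ b ⟨hb, h2⟩
  exact hxBr.2 U1 hOD1.oU hx1 subset_rfl hinjU

end LibTN40
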