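import Pool.Agent.LibTN40.SH
import Pool.Agent.LibBR40.N2

set_option autoImplicit false

/-! TN40 row NH (MEDIUM).  The preimage of a compact set with connected complement does not separate the cube.  You may
use `SH` and everything of `LibBR40`.

PLAN.  Let `Q = Cube c s`, `R = U ∩ f ⁻¹' L`, compact by `h.prp L hLV hL`, contained in `Q` (`hR`).  There is `0 < s' < s`
with `R ⊆ S' := {y | ∀ i, |y i - c i| ≤ s'}` (the continuous functions `|y i - c i|` have maxima `< s` on the compact `R`, or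
cover `R` by the increasing open sets `Cube c t`, `t < s`; take also `0 < s'`).  The shell `Q \ S'` is connected (`SH`)
and contained in `Q \ f ⁻¹' L`, so `Q \ f ⁻¹' L` is nonempty.  Preconnected: let `Q \ f ⁻¹' L ⊆ u ∪ v`, `u, v` open, both
meeting it, and suppose `(Q \ f ⁻¹' L) ∩ (u ∩ v) = ∅`.  Let `O1 = (Q \ f ⁻¹' L) ∩ u`, `O2 = (Q \ f ⁻¹' L) ∩ v`, open (`f` is
continuous on the open `U ⊇ Q`, `L` closed: `h.cont.isOpen_inter_preimage`), disjoint, both nonempty, union `Q \ f ⁻¹' L`.  The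
shell lies in one of them, say in `O1` (`IsPreconnected.subset_or_subset` ...); then `O2 ⊆ S'`, which is compact and
contained in `Q`.  `f '' O2` is open (`h.opn`).  `closure O2 ⊆ S' ⊆ Q` is compact, and a point of `closure O2` is not in the
open `O1`, so it is in `O2` or in `f ⁻¹' L`; so the compact set `f '' (closure O2)` is contained in `f '' O2 ∪ L` and
`f '' O2` is closed relative to `Lᶜ`: `Lᶜ ∩ closure (f '' O2) ⊆ f '' O2`.  `f '' O2 ⊆ Lᶜ` is nonempty, so
`IsPreconnected.subset_of_closure_inter_subset` (for the connected `Lᶜ`, compare the proof of `LibBR40.N2_image_connected`)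
gives `Lᶜ ⊆ f '' O2`, which is bounded (inside a compact set); `L` is bounded as well, so `Set.univ` is bounded: contradiction
for `n ≥ 1` (for instance `Eu n` is a nontrivial normed space, `NormedSpace.unbounded_univ ℝ _` or
`noncompact`). -/

namespace LibTN40

open LibBR40

private theorem NH_radius {n : ℕ} (c : Eu n) {s : ℝ} (hs : 0 < s) (R : Set (Eu n))
    (hR : IsCompact R) (hRs : R ⊆ Cube c s) :
    ∃ s', 0 < s' ∧ s' < s ∧ R ⊆ {y : Eu n | ∀ i, |y i - c i| ≤ s'} := by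
  rcases R.eq_empty_or_nonempty with h0 | hne
  · exact ⟨s / 2, by linarith, by linarith, by rw [h0]; exact Set.empty_subset _⟩
  · have hcont : Continuous fun y : Eu n => ‖(fun i => y i - c i : Fin n → ℝ)‖ := by
      refine continuous_norm.comp (continuous_pi fun i => ?_)
      fun_prop
    obtain ⟨y0, hy0, hmax⟩ := hR.exists_isMaxOn hne hcont.continuousOn
    have h1 : ‖(fun i => y0 i - c i : Fin n → ℝ)‖ < s := by
      rw [pi_norm_lt_iff hs]
      intro i
      rw [Real.norm_eq_abs]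
      exact hRs hy0 i
    refine ⟨max ‖(fun i => y0 i - c i : Fin n → ℝ)‖ (s / 2), ?_, ?_, ?_⟩
    · exact lt_max_of_lt_right (by linarith)
    · exact max_lt h1 (by linarith)
    · intro y hy i
      have h2 : ‖(fun i => y i - c i : Fin n → ℝ)‖ ≤ ‖(fun i => y0 i - c i : Fin n → ℝ)‖ := hmax hy
      have h3 := norm_le_pi_norm (fun i => y i - c i : Fin n → ℝ) i
      rw [Real.norm_eq_abs] at h3
      exact (h3.trans h2).trans (le_max_left _ _)

private theorem NH_compact {n : ℕ} (c : Eu n) (r : ℝ) :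
    IsCompact {y : Eu n | ∀ i, |y i - c i| ≤ r} := by
  have hKcl : IsClosed {y : Eu n | ∀ i, |y i - c i| ≤ r} := by
    have : {y : Eu n | ∀ i, |y i - c i| ≤ r} = ⋂ i, {y : Eu n | |y i - c i| ≤ r} := by
      ext y; simp
    rw [this]
    refine isClosed_iInter fun i => ?_
    have hc : Continuous fun y : Eu n => |y i - c i| := by fun_prop
    exact isClosed_le hc continuous_const
  have hKb : Bornology.IsBounded {y : Eu n | ∀ i, |y i - c i| ≤ r} := by
    rw [Metric.isBounded_iff_subset_closedBall c]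
    refine ⟨√(n * r ^ 2), fun y hy => ?_⟩
    rw [Metric.mem_closedBall, EuclideanSpace.dist_eq]
    apply Real.sqrt_le_sqrt
    calc ∑ i : Fin n, dist (y i) (c i) ^ 2 ≤ ∑ _i : Fin n, r ^ 2 := by
          refine Finset.sum_le_sum fun i _ => ?_
          rw [Real.dist_eq]
          exact pow_le_pow_left₀ (abs_nonneg _) (hy i) 2
      _ = n * r ^ 2 := by simp
  exact Metric.isCompact_of_isClosed_isBounded hKcl hKb

private theorem NH_side {n : ℕ} (hn : 2 ≤ n) {f : Eu n → Eu n} {U V : Set (Eu n)} (h : OD f U V)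
    (c : Eu n) {s s' : ℝ} (hQ : Cube c s ⊆ U) (hss : s' < s) (L : Set (Eu n)) (hL : IsCompact L)
    (hLc : IsConnected Lᶜ) (u v : Set (Eu n)) (hu : IsOpen u) (hv : IsOpen v)
    (huv : Cube c s \ f ⁻¹' L ⊆ u ∪ v) (hdis : (Cube c s \ f ⁻¹' L) ∩ (u ∩ v) = ∅)
    (hsh : Cube c s \ {y : Eu n | ∀ i, |y i - c i| ≤ s'} ⊆ u) : Cube c s \ f ⁻¹' L ⊆ u := by
  by_contra hcon
  rw [Set.not_subset] at hcon
  obtain ⟨x, hx, hxu⟩ := hcon
  have hXo : IsOpen (Cube c s \ f ⁻¹' L) := by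
    have h1 := (h.cont.mono hQ).isOpen_inter_preimage (N2_isOpen_Cube c s) hL.isClosed.isOpen_compl
    rwa [Set.preimage_compl, ← Set.diff_eq] at h1
  have hxv : x ∈ v := (huv hx).resolve_left hxu
  have hO2o : IsOpen ((Cube c s \ f ⁻¹' L) ∩ v) := hXo.inter hv
  have hO1o : IsOpen ((Cube c s \ f ⁻¹' L) ∩ u) := hXo.inter hu
  have hSQ : {y : Eu n | ∀ i, |y i - c i| ≤ s'} ⊆ Cube c s := fun y hy i => (hy i).trans_lt hss
  have hS := NH_compact c s'
  have hO2S : (Cube c s \ f ⁻¹' L) ∩ v ⊆ {y : Eu n | ∀ i, |y i - c i| ≤ s'} := by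
    rintro y ⟨hy1, hy2⟩
    by_contra hyS
    have h1 : y ∈ (Cube c s \ f ⁻¹' L) ∩ (u ∩ v) := ⟨hy1, hsh ⟨hy1.1, hyS⟩, hy2⟩
    rw [hdis] at h1
    exact h1
  have hcl : closure ((Cube c s \ f ⁻¹' L) ∩ v) ⊆ {y : Eu n | ∀ i, |y i - c i| ≤ s'} :=
    closure_minimal hO2S hS.isClosed
  have hclc : IsCompact (closure ((Cube c s \ f ⁻¹' L) ∩ v)) :=
    hS.of_isClosed_subset isClosed_closure hcl
  have himc : IsCompact (f '' closure ((Cube c s \ f ⁻¹' L) ∩ v)) :=
    hclc.image_of_continuousOn (h.cont.mono ((hcl.trans hSQ).trans hQ))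
  have hfo : IsOpen (f '' ((Cube c s \ f ⁻¹' L) ∩ v)) :=
    h.opn _ hO2o (fun y hy => hQ hy.1.1)
  have hsub : Lᶜ ⊆ f '' ((Cube c s \ f ⁻¹' L) ∩ v) := by
    refine hLc.isPreconnected.subset_of_closure_inter_subset hfo ?_ ?_
    · exact ⟨f x, hx.2, x, ⟨hx, hxv⟩, rfl⟩
    · rintro w ⟨hw1, hw2⟩
      have h1 : closure (f '' ((Cube c s \ f ⁻¹' L) ∩ v)) ⊆
          f '' closure ((Cube c s \ f ⁻¹' L) ∩ v) :=
        closure_minimal (Set.image_mono subset_closure) himc.isClosed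
      obtain ⟨y, hy, rfl⟩ := h1 hw1
      have hyX : y ∈ Cube c s \ f ⁻¹' L := ⟨hSQ (hcl hy), hw2⟩
      rcases huv hyX with hyu | hyv
      · exfalso
        rw [mem_closure_iff] at hy
        obtain ⟨z, hz1, hz2⟩ := hy _ hO1o ⟨hyX, hyu⟩
        have h2 : z ∈ (Cube c s \ f ⁻¹' L) ∩ (u ∩ v) := ⟨hz1.1, hz1.2, hz2.2⟩
        rw [hdis] at h2
        exact h2
      · exact ⟨y, ⟨hyX, hyv⟩, rfl⟩
  have huniv : (Set.univ : Set (Eu n)) ⊆ L ∪ f '' closure ((Cube c s \ f ⁻¹' L) ∩ v) := by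
    intro w _
    by_cases hw : w ∈ L
    · exact Or.inl hw
    · exact Or.inr (Set.image_mono subset_closure (hsub hw))
  have hcomp : IsCompact (Set.univ : Set (Eu n)) :=
    (hL.union himc).of_isClosed_subset isClosed_univ huniv
  haveI : Nonempty (Fin n) := ⟨⟨0, by omega⟩⟩
  exact NormedSpace.unbounded_univ ℝ (Eu n) hcomp.isBounded

theorem NH {n : ℕ} (hn : 2 ≤ n) {f : Eu n → Eu n} {U V : Set (Eu n)} (h : OD f U V) (c : Eu n)
    {s : ℝ} (hs : 0 < s) (hQ : Cube c s ⊆ U) (L : Set (Eu n)) (hL : IsCompact L) (hLV : L ⊆ V)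
    (hLc : IsConnected Lᶜ) (hR : U ∩ f ⁻¹' L ⊆ Cube c s) :
    IsConnected (Cube c s \ f ⁻¹' L) := by
  obtain ⟨s', hs0, hs1, hRS⟩ := NH_radius c hs _ (h.prp L hLV hL) hR
  have hsh := SH hn c hs0 hs1
  have hshX : Cube c s \ {y : Eu n | ∀ i, |y i - c i| ≤ s'} ⊆ Cube c s \ f ⁻¹' L := by
    rintro y ⟨hy1, hy2⟩
    exact ⟨hy1, fun hy3 => hy2 (hRS ⟨hQ hy1, hy3⟩)⟩
  refine ⟨hsh.nonempty.mono hshX, ?_⟩
  rw [isPreconnected_iff_subset_of_disjoint]
  intro u v hu hv huv hdis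
  rcases (isPreconnected_iff_subset_of_disjoint.1 hsh.isPreconnected) u v hu hv (hshX.trans huv)
    (Set.eq_empty_of_subset_empty (by
      rw [← hdis]
      exact Set.inter_subset_inter_left _ hshX)) with h1 | h1
  · exact Or.inl (NH_side hn h c hQ hs1 L hL hLc u v hu hv huv hdis h1)
  · refine Or.inr (NH_side hn h c hQ hs1 L hL hLc v u hv hu ?_ ?_ h1)
    · rw [Set.union_comm]
      exact huv
    · rw [Set.inter_comm v u]
      exact hdis

end LibTN40
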