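import Pool.Agent.LibTN40.Defs

set_option autoImplicit false

/-! TN40 row SH (SHORT/MEDIUM, ONLY Mathlib).  The shell of a cube is connected for `n ≥ 2`.

PLAN.  The shell is the union over `i : Fin n` and a sign of the slabs `{y ∈ Cube c s | s' < y i - c i}` and
`{y ∈ Cube c s | y i - c i < -s'}` (a point of the cube outside `{∀ i, |y i - c i| ≤ s'}` has a coordinate with
`s' < |y i - c i|`).  Each slab is convex (intersection of the cube, see `LibBR40.N2_convex_Cube` if you import
`Pool.Agent.LibBR40.N2`, with a half space), so preconnected.  Two slabs for different `i ≠ j` (all signs) intersect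
(the point with coordinates `c i ± m`, `c j ± m`, the others `c k`, `m = (s + s') / 2`).  Two slabs of the same `i` are
joined by a slab of another `j` (`n ≥ 2`).  So for a base point `p0` of a fixed slab every point of the shell lies in a
preconnected subset of the shell containing `p0` (`isPreconnected_of_forall`, `IsPreconnected.union'`), or use
`IsPreconnected.iUnion_of_reflTransGen` / `isPreconnected_iUnion`. -/

namespace LibTN40

open LibBR40

/-- the slab in the direction `i` with the sign `ε` -/
private def SH_S {n : ℕ} (c : Eu n) (s s' : ℝ) (i : Fin n) (ε : ℝ) : Set (Eu n) :=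
  {y | y ∈ Cube c s ∧ s' < ε * (y i - c i)}

private theorem SH_pre {n : ℕ} (c : Eu n) (s s' : ℝ) (i : Fin n) (ε : ℝ) : IsPreconnected (SH_S c s s' i ε) := by
  apply Convex.isPreconnected
  intro x hx y hy a b ha hb hab
  constructor
  · intro k
    have h1 := hx.1 k
    have h2 := hy.1 k
    have e : (a • x + b • y) k - c k = a * (x k - c k) + b * (y k - c k) := by
      simp only [PiLp.add_apply, PiLp.smul_apply, smul_eq_mul]
      linear_combination (c k) * hab
    rw [e]
    obtain ⟨l1, u1⟩ := abs_lt.1 h1
    obtain ⟨l2, u2⟩ := abs_lt.1 h2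
    rcases ha.eq_or_lt with h | h
    · subst h
      have hb1 : b = 1 := by linarith
      rw [hb1, zero_mul, one_mul, zero_add]
      exact h2
    · rw [abs_lt]
      constructor
      · nlinarith
      · nlinarith
  · have h1 := hx.2
    have h2 := hy.2
    have e : ε * ((a • x + b • y) i - c i) = a * (ε * (x i - c i)) + b * (ε * (y i - c i)) := by
      simp only [PiLp.add_apply, PiLp.smul_apply, smul_eq_mul]
      linear_combination ε * (c i) * hab
    rw [e]
    rcases ha.eq_or_lt with h | h
    · subst h
      have hb1 : b = 1 := by linarith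
      rw [hb1, zero_mul, one_mul, zero_add]
      exact h2
    · have h3 := mul_lt_mul_of_pos_left h1 h
      have h4 := mul_le_mul_of_nonneg_left h2.le hb
      have h5 : a * s' + b * s' = s' := by rw [← add_mul, hab, one_mul]
      linarith

private theorem SH_sub {n : ℕ} (c : Eu n) (s s' : ℝ) (i : Fin n) {ε : ℝ} (hε : |ε| = 1) :
    SH_S c s s' i ε ⊆ Cube c s \ {y : Eu n | ∀ i, |y i - c i| ≤ s'} := by
  rintro y ⟨h1, h2⟩
  refine ⟨h1, fun h3 => ?_⟩
  have h4 := h3 i
  have h5 : ε * (y i - c i) ≤ |ε * (y i - c i)| := le_abs_self _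
  rw [abs_mul, hε, one_mul] at h5
  linarith

theorem SH {n : ℕ} (hn : 2 ≤ n) (c : Eu n) {s s' : ℝ} (h0 : 0 < s') (hs : s' < s) :
    IsConnected (Cube c s \ {y : Eu n | ∀ i, |y i - c i| ≤ s'}) := by
  set m : ℝ := (s + s') / 2 with hm
  have hm1 : s' < m := by linarith
  have hm2 : m < s := by linarith
  have hm0 : 0 < m := by linarith
  set p0 : Eu n := WithLp.toLp 2 (fun k => c k + m) with hp0
  have hp0k : ∀ k, p0 k - c k = m := by
    intro k
    show c k + m - c k = m
    ring
  have hp0S : ∀ i, p0 ∈ SH_S c s s' i 1 := by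
    intro i
    refine ⟨fun k => ?_, ?_⟩
    · rw [hp0k, abs_of_pos hm0]
      exact hm2
    · rw [hp0k, one_mul]
      exact hm1
  have hi0 : 0 < n := by omega
  refine ⟨⟨p0, SH_sub c s s' ⟨0, hi0⟩ (by simp) (hp0S _)⟩, ?_⟩
  apply isPreconnected_of_forall p0
  rintro y ⟨hy1, hy2⟩
  have hy3 : ∃ i, s' < |y i - c i| := by
    by_contra h
    push Not at h
    exact hy2 h
  obtain ⟨i, hi⟩ := hy3
  rcases lt_abs.1 hi with h | h
  · exact ⟨SH_S c s s' i 1, SH_sub c s s' i (by simp), hp0S i, ⟨hy1, by rw [one_mul]; exact h⟩, SH_pre c s s' i 1⟩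
  · obtain ⟨j, hj⟩ : ∃ j : Fin n, j ≠ i := by
      by_cases h1 : i = ⟨0, hi0⟩
      · refine ⟨⟨1, by omega⟩, ?_⟩
        rw [h1]
        intro h2
        simp at h2
      · exact ⟨⟨0, hi0⟩, fun h2 => h1 h2.symm⟩
    set q : Eu n := WithLp.toLp 2 (fun k => if k = i then c k - m else c k + m) with hq
    have hqi : q i - c i = -m := by
      show (if i = i then c i - m else c i + m) - c i = -m
      rw [if_pos rfl]
      ring
    have hqk : ∀ k, k ≠ i → q k - c k = m := by
      intro k hk
      show (if k = i then c k - m else c k + m) - c k = m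
      rw [if_neg hk]
      ring
    have hqC : q ∈ Cube c s := by
      intro k
      by_cases hk : k = i
      · rw [hk, hqi, abs_neg, abs_of_pos hm0]
        exact hm2
      · rw [hqk k hk, abs_of_pos hm0]
        exact hm2
    have hne : (SH_S c s s' i (-1) ∩ SH_S c s s' j 1).Nonempty := by
      refine ⟨q, ⟨hqC, ?_⟩, ⟨hqC, ?_⟩⟩
      · rw [hqi]
        linarith
      · rw [hqk j hj]
        linarith
    refine ⟨SH_S c s s' i (-1) ∪ SH_S c s s' j 1, ?_, Or.inr (hp0S j), Or.inl ⟨hy1, by linarith⟩,
      IsPreconnected.union' hne (SH_pre c s s' i (-1)) (SH_pre c s s' j 1)⟩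
    exact Set.union_subset (SH_sub c s s' i (by simp)) (SH_sub c s s' j (by simp))

end LibTN40
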